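import Pool.Agent.R525.HJ.Weak

/-!
# The map is bounded
-/

set_option autoImplicit false

open Set Metric MeasureTheory Filter Topology
open scoped ContDiff ENNReal

namespace Pool.Agent.R525.HJ

variable {m : ℕ}

theorem norm_mul_b_le_one (ξ : E (m + 3)) : ‖ξ‖ * b ξ ≤ 1 := by
  have hb := b_pos ξ
  rcases le_total ‖ξ‖ 1 with h | h
  · calc ‖ξ‖ * b ξ ≤ 1 * 1 := by gcongr; exact b_le_one ξ
      _ = 1 := by norm_num
  · calc ‖ξ‖ * b ξ = b ξ * ‖ξ‖ ^ 1 := by ring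
      _ ≤ b ξ * ‖ξ‖ ^ (m + 3) := by
          gcongr
          omega
      _ ≤ 1 := b_mul_pow_le ξ

theorem normsq_mul_b_le_one (ξ : E (m + 3)) : ‖ξ‖ * (‖ξ‖ * b ξ) ≤ 1 := by
  have hb := b_pos ξ
  rcases le_total ‖ξ‖ 1 with h | h
  · calc ‖ξ‖ * (‖ξ‖ * b ξ) ≤ 1 * 1 := by gcongr; exact norm_mul_b_le_one ξ
      _ = 1 := by norm_num
  · calc ‖ξ‖ * (‖ξ‖ * b ξ) = b ξ * ‖ξ‖ ^ 2 := by ring
      _ ≤ b ξ * ‖ξ‖ ^ (m + 3) := by
          gcongr
          omega
      _ ≤ 1 := b_mul_pow_le ξ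

/-- The part of the `j`-th term that does not depend on `c`. -/
noncomputable def w (j : ℕ) (x : E (m + 3)) : ℝ := ‖x - X j‖ * a j x

theorem w_nonneg (j : ℕ) (x : E (m + 3)) : 0 ≤ w j x :=
  mul_nonneg (norm_nonneg _) (a_pos j x).le

theorem w_eq (j : ℕ) (x : E (m + 3)) : w j x = ‖S (r j) (X j) x‖ * b (S (r j) (X j) x) := by
  unfold w a A
  rw [norm_S (r_pos j)]
  ring

theorem w_le_one (j : ℕ) (x : E (m + 3)) : w j x ≤ 1 := by
  rw [w_eq]; exact norm_mul_b_le_one _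

theorem w_le (j : ℕ) (x : E (m + 3)) (h : ρ j / 8 ≤ ‖x - X j‖) : w j x ≤ 8 * ρ j := by
  have h1 := normsq_mul_b_le_one (S (r j) (X j) x)
  rw [← w_eq, norm_S (r_pos j)] at h1
  have hρ := ρ_pos j
  have h2 : 0 ≤ w j x := w_nonneg j x
  have h3 : (r j)⁻¹ * (ρ j / 8) * w j x ≤ 1 := by
    refine le_trans ?_ h1
    have := r_pos j
    gcongr
  have h4 : (r j)⁻¹ * (ρ j / 8) = (8 * ρ j)⁻¹ := by unfold r; field_simp
  rw [h4, inv_mul_le_iff₀ (by positivity), mul_one] at h3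
  exact h3

theorem ρ_lt {i j : ℕ} (h : i < j) : ρ j ≤ ρ i / 2 := by
  unfold ρ
  calc ((1:ℝ) / 2) ^ (j + 2) ≤ (1 / 2) ^ (i + 2 + 1) :=
        pow_le_pow_of_le_one (by norm_num) (by norm_num) (by omega)
    _ = _ := by rw [pow_succ]; ring

theorem not_both {i j : ℕ} (h : i < j) {x : E (m + 3)} (h1 : ‖x - X i‖ < ρ i / 8)
    (h2 : ‖x - X j‖ < ρ j / 8) : False := by
  have h3 := ρ_lt h
  have h4 : ‖X (m := m) i‖ ≤ ‖x - X i‖ + ‖x - X j‖ + ‖X (m := m) j‖ := by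
    calc ‖X (m := m) i‖ = ‖(x - X j) - (x - X i) + X j‖ := by congr 1; abel
      _ ≤ ‖(x - X j) - (x - X i)‖ + ‖X (m := m) j‖ := norm_add_le _ _
      _ ≤ (‖x - X j‖ + ‖x - X i‖) + ‖X (m := m) j‖ := by gcongr; exact norm_sub_le _ _
      _ = _ := by ring
  rw [norm_X, norm_X] at h4
  have := ρ_pos i
  have := ρ_pos j
  linarith

theorem tsum_w_le (x : E (m + 3)) : Summable (fun j => w j x) ∧ ∑' j, w j x ≤ 1 + 8 * ∑' j, ρ j := by
  have hs8 : Summable fun j => 8 * ρ j := summable_ρ.mul_left 8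
  by_cases h : ∃ i, ‖x - X (m := m) i‖ < ρ i / 8
  · obtain ⟨i, hi⟩ := h
    have hb : ∀ j, w j x ≤ (if j = i then 1 else 0) + 8 * ρ j := by
      intro j
      have hρ := ρ_pos j
      by_cases hj : j = i
      · rw [if_pos hj]
        have := w_le_one j x
        linarith
      · rw [if_neg hj, zero_add]
        apply w_le
        by_contra hlt
        push Not at hlt
        rcases lt_or_gt_of_ne hj with h' | h'
        · exact not_both h' hlt hi
        · exact not_both h' hi hlt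
    have hs1 : HasSum (fun j => if j = i then (1:ℝ) else 0) 1 := hasSum_ite_eq i 1
    have hs : Summable (fun j => w j x) :=
      Summable.of_nonneg_of_le (fun j => w_nonneg j x) hb (hs1.summable.add hs8)
    refine ⟨hs, ?_⟩
    have := hs.tsum_le_tsum hb (hs1.summable.add hs8)
    rw [hs1.summable.tsum_add hs8, hs1.tsum_eq, tsum_mul_left] at this
    exact this
  · push Not at h
    have hb : ∀ j, w j x ≤ 8 * ρ j := fun j => w_le j x (h j)
    have hs : Summable (fun j => w j x) :=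
      Summable.of_nonneg_of_le (fun j => w_nonneg j x) hb hs8
    refine ⟨hs, ?_⟩
    have := hs.tsum_le_tsum hb hs8
    rw [tsum_mul_left] at this
    linarith

theorem abs_u_le {c : E (m + 3)} (hc : inner ℝ c (ev 0) = (0:ℝ)) (hc1 : ‖c‖ ≤ 1)
    (x : E (m + 3)) : |inner ℝ c x * H x| ≤ 1 + 8 * ∑' j, ρ j := by
  obtain ⟨hs, hle⟩ := tsum_w_le x
  have h1 : ∀ j, ‖ft c j x‖ ≤ w j x := by
    intro j
    have h2 := abs_Fs_le c (r_pos j) (X j) x
    rw [Real.norm_eq_abs]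
    refine h2.trans ?_
    unfold w a
    have h3 : 0 ≤ ‖x - X j‖ * A (r j) (X j) x := mul_nonneg (norm_nonneg _) (A_pos (r_pos j) _ _).le
    rw [mul_assoc]
    nlinarith
  rw [← (hasSum_ft hc x).tsum_eq, ← Real.norm_eq_abs]
  exact (tsum_of_norm_bounded hs.hasSum h1).trans hle

end Pool.Agent.R525.HJ
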