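import Mathlib

/-!
# The bubble `F c ξ = ⟨c, ξ⟩ (1 + |ξ|^(2n))^(-1/2)`, `n = m + 3`
-/

set_option autoImplicit false

open Set Metric
open scoped ContDiff

namespace Pool.Agent.R525.HJ

/-- Euclidean space. -/
abbrev E (n : ℕ) := EuclideanSpace ℝ (Fin n)

variable {m : ℕ}

/-- one variable profile -/
noncomputable def q (m : ℕ) (t : ℝ) : ℝ := (√(1 + t ^ (m + 3)))⁻¹

/-- the profile -/
noncomputable def b (ξ : E (m + 3)) : ℝ := q m (‖ξ‖ ^ 2)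

theorem one_add_pos {t : ℝ} (ht : 0 ≤ t) : 0 < 1 + t ^ (m + 3) := by positivity

theorem q_pos {t : ℝ} (ht : 0 ≤ t) : 0 < q m t := by
  unfold q
  have := one_add_pos (m := m) ht
  positivity

theorem q_sq {t : ℝ} (ht : 0 ≤ t) : q m t ^ 2 * (1 + t ^ (m + 3)) = 1 := by
  unfold q
  have := one_add_pos (m := m) ht
  rw [inv_pow, Real.sq_sqrt this.le, inv_mul_cancel₀ this.ne']

theorem q_le_one {t : ℝ} (ht : 0 ≤ t) : q m t ≤ 1 := by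
  unfold q
  apply inv_le_one_of_one_le₀
  rw [Real.one_le_sqrt]
  have : (0 : ℝ) ≤ t ^ (m + 3) := by positivity
  linarith

theorem hasDerivAt_q {t : ℝ} (ht : 0 ≤ t) :
    HasDerivAt (q m) (-((m + 3 : ℝ) / 2) * t ^ (m + 2) * q m t ^ 3) t := by
  have h0 := one_add_pos (m := m) ht
  have h1 : HasDerivAt (fun t : ℝ => 1 + t ^ (m + 3)) ((m + 3 : ℝ) * t ^ (m + 2)) t := by
    have := (hasDerivAt_pow (m + 3) t).const_add 1
    refine this.congr_deriv ?_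
    push_cast
    norm_num
  have h2 := (h1.sqrt h0.ne').inv (by positivity)
  refine HasDerivAt.congr_deriv h2 ?_
  unfold q
  have hs : 0 < √(1 + t ^ (m + 3)) := by positivity
  have hq : √(1 + t ^ (m + 3)) ^ 2 = 1 + t ^ (m + 3) := Real.sq_sqrt h0.le
  field_simp

theorem b_pos (ξ : E (m + 3)) : 0 < b ξ := q_pos (by positivity)
theorem b_le_one (ξ : E (m + 3)) : b ξ ≤ 1 := q_le_one (by positivity)
theorem b_sq (ξ : E (m + 3)) : b ξ ^ 2 * (1 + (‖ξ‖ ^ 2) ^ (m + 3)) = 1 := q_sq (by positivity)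

theorem contDiff_b : ContDiff ℝ ∞ (b (m := m)) := by
  unfold b q
  have h1 : ContDiff ℝ ∞ (fun ξ : E (m + 3) => 1 + (‖ξ‖ ^ 2) ^ (m + 3)) :=
    contDiff_const.add ((contDiff_norm_sq ℝ).pow _)
  have hp : ∀ ξ : E (m + 3), 0 < 1 + (‖ξ‖ ^ 2) ^ (m + 3) := fun ξ => by positivity
  refine (h1.sqrt fun ξ => (hp ξ).ne').inv fun ξ => ?_
  have := hp ξ
  positivity

theorem hasFDerivAt_b (ξ : E (m + 3)) :
    HasFDerivAt b ((-((m + 3 : ℝ)) * (‖ξ‖ ^ 2) ^ (m + 2) * b ξ ^ 3) • innerSL ℝ ξ) ξ := by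
  have h1 : HasFDerivAt (fun x : E (m + 3) => ‖x‖ ^ 2) (2 • innerSL ℝ ξ) ξ :=
    (hasStrictFDerivAt_norm_sq ξ).hasFDerivAt
  have h2 := (hasDerivAt_q (m := m) (t := ‖ξ‖ ^ 2) (by positivity)).comp_hasFDerivAt ξ h1
  refine HasFDerivAt.congr_fderiv (f := b) h2 ?_
  ext v
  simp [b]
  ring

/-- The bubble. -/
noncomputable def F (c : E (m + 3)) (ξ : E (m + 3)) : ℝ := inner ℝ c ξ * b ξ

/-- coefficient -/
noncomputable def co (c : E (m + 3)) (ξ : E (m + 3)) : ℝ :=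
  (m + 3 : ℝ) * (‖ξ‖ ^ 2) ^ (m + 2) * b ξ ^ 3 * inner ℝ c ξ

/-- The gradient of the bubble. -/
noncomputable def dF (c : E (m + 3)) (ξ : E (m + 3)) : E (m + 3) := b ξ • c - co c ξ • ξ

/-- The Laplacian of the bubble. -/
noncomputable def lF (c : E (m + 3)) (ξ : E (m + 3)) : ℝ :=
  -(3 * (m + 3 : ℝ) ^ 2) * (‖ξ‖ ^ 2) ^ (m + 2) * b ξ ^ 5 * inner ℝ c ξ

theorem contDiff_F (c : E (m + 3)) : ContDiff ℝ ∞ (F c) :=
  (contDiff_const.inner ℝ contDiff_id).mul contDiff_b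

theorem contDiff_co (c : E (m + 3)) : ContDiff ℝ ∞ (co c) := by
  unfold co
  exact (((contDiff_const.mul ((contDiff_norm_sq ℝ).pow _)).mul (contDiff_b.pow 3)).mul
    (contDiff_const.inner ℝ contDiff_id))

theorem contDiff_dF (c : E (m + 3)) : ContDiff ℝ ∞ (dF c) :=
  (contDiff_b.smul contDiff_const).sub ((contDiff_co c).smul contDiff_id)

theorem contDiff_lF (c : E (m + 3)) : ContDiff ℝ ∞ (lF c) := by
  unfold lF
  exact (((contDiff_const.mul ((contDiff_norm_sq ℝ).pow _)).mul (contDiff_b.pow 5)).mul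
    (contDiff_const.inner ℝ contDiff_id))

theorem hasFDerivAt_inner' (c ξ : E (m + 3)) :
    HasFDerivAt (fun x : E (m + 3) => (inner ℝ c x : ℝ)) (innerSL ℝ c) ξ :=
  (innerSL ℝ c).hasFDerivAt

theorem hasFDerivAt_F (c ξ : E (m + 3)) : HasFDerivAt (F c) (innerSL ℝ (dF c ξ)) ξ := by
  have h := (hasFDerivAt_inner' c ξ).mul (hasFDerivAt_b ξ)
  refine HasFDerivAt.congr_fderiv (f := F c) h ?_
  ext v
  simp [dF, co]
  ring

theorem hasFDerivAt_normpow (k : ℕ) (ξ : E (m + 3)) :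
    HasFDerivAt (fun x : E (m + 3) => (‖x‖ ^ 2) ^ (k + 1))
      ((2 * (k + 1 : ℝ) * (‖ξ‖ ^ 2) ^ k) • innerSL ℝ ξ) ξ := by
  have h1 : HasFDerivAt (fun x : E (m + 3) => ‖x‖ ^ 2) (2 • innerSL ℝ ξ) ξ :=
    (hasStrictFDerivAt_norm_sq ξ).hasFDerivAt
  have h2 := (hasDerivAt_pow (k + 1) (‖ξ‖ ^ 2)).comp_hasFDerivAt ξ h1
  refine HasFDerivAt.congr_fderiv (f := (fun x : E (m + 3) => (‖x‖ ^ 2) ^ (k + 1))) h2 ?_
  ext v
  simp
  ring

theorem hasFDerivAt_co (c ξ : E (m + 3)) : HasFDerivAt (co c)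
    (((2 * (m + 3 : ℝ) * (m + 2) * (‖ξ‖ ^ 2) ^ (m + 1) * b ξ ^ 3 * inner ℝ c ξ)
       - 3 * (m + 3 : ℝ) ^ 2 * ((‖ξ‖ ^ 2) ^ (m + 2)) ^ 2 * b ξ ^ 5 * inner ℝ c ξ) • innerSL ℝ ξ +
      ((m + 3 : ℝ) * (‖ξ‖ ^ 2) ^ (m + 2) * b ξ ^ 3) • innerSL ℝ c) ξ := by
  have h1 := ((hasFDerivAt_normpow (m := m) (m + 1) ξ).const_mul (m + 3 : ℝ))
  have h2 : HasFDerivAt (fun x : E (m + 3) => b x ^ 3)
      ((3 * b ξ ^ 2) • ((-((m + 3 : ℝ)) * (‖ξ‖ ^ 2) ^ (m + 2) * b ξ ^ 3) • innerSL ℝ ξ)) ξ := by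
    have := (hasDerivAt_pow 3 (b ξ)).comp_hasFDerivAt ξ (hasFDerivAt_b ξ)
    refine HasFDerivAt.congr_fderiv (f := fun x : E (m + 3) => b x ^ 3) this ?_
    ext v
    simp
  have h := (h1.mul h2).mul (hasFDerivAt_inner' c ξ)
  refine HasFDerivAt.congr_fderiv (f := co c) h ?_
  ext v
  simp
  ring

end Pool.Agent.R525.HJ
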