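import Pool.Agent.R525.HJ.Bub

/-!
# The trace of the second derivative, and bounds
-/

set_option autoImplicit false

open Set Metric MeasureTheory
open scoped ContDiff

namespace Pool.Agent.R525.HJ

variable {m : ℕ}

/-- coordinate vectors -/
noncomputable def ev (κ : Fin (m + 3)) : E (m + 3) := EuclideanSpace.single κ (1 : ℝ)

theorem inner_ev (ξ : E (m + 3)) (κ : Fin (m + 3)) : (inner ℝ ξ (ev κ) : ℝ) = ξ κ := by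
  simp [ev, EuclideanSpace.inner_single_right]

theorem inner_eq_sum (ξ η : E (m + 3)) : (inner ℝ ξ η : ℝ) = ∑ κ, ξ κ * η κ := by
  simp [PiLp.inner_apply, mul_comm]

theorem normsq_eq_sum (ξ : E (m + 3)) : ‖ξ‖ ^ 2 = ∑ κ, ξ κ * ξ κ := by
  rw [← inner_eq_sum, real_inner_self_eq_norm_sq]

theorem hasFDerivAt_coord (κ : Fin (m + 3)) (ξ : E (m + 3)) :
    HasFDerivAt (fun x : E (m + 3) => x κ) (EuclideanSpace.proj (𝕜 := ℝ) κ) ξ :=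
  (EuclideanSpace.proj (𝕜 := ℝ) κ).hasFDerivAt

theorem fderiv_dF (c ξ : E (m + 3)) (κ : Fin (m + 3)) :
    fderiv ℝ (fun x => dF c x κ) ξ (ev κ) =
      (-((m + 3 : ℝ)) * (‖ξ‖ ^ 2) ^ (m + 2) * b ξ ^ 3 * ξ κ) * c κ -
      ((((2 * (m + 3 : ℝ) * (m + 2) * (‖ξ‖ ^ 2) ^ (m + 1) * b ξ ^ 3 * inner ℝ c ξ)
       - 3 * (m + 3 : ℝ) ^ 2 * ((‖ξ‖ ^ 2) ^ (m + 2)) ^ 2 * b ξ ^ 5 * inner ℝ c ξ) * ξ κ +
      ((m + 3 : ℝ) * (‖ξ‖ ^ 2) ^ (m + 2) * b ξ ^ 3) * c κ) * ξ κ + co c ξ) := by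
  have h1 := (hasFDerivAt_b ξ).mul_const (c κ)
  have h2 := (hasFDerivAt_co c ξ).mul (hasFDerivAt_coord κ ξ)
  have h3 := h1.sub h2
  have h4 : HasFDerivAt (fun x => dF c x κ) _ ξ := h3
  rw [h4.fderiv]
  have h5 : EuclideanSpace.proj (𝕜 := ℝ) κ (ev (m := m) κ) = 1 := by simp [ev]
  simp only [_root_.sub_apply, _root_.add_apply,
    _root_.smul_apply, innerSL_apply_apply, inner_ev, smul_eq_mul, h5]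
  ring

theorem trace_dF (c ξ : E (m + 3)) :
    ∑ κ, fderiv ℝ (fun x => dF c x κ) ξ (ev κ) = lF c ξ := by
  simp only [fderiv_dF]
  set t := ‖ξ‖ ^ 2 with ht
  set i := (inner ℝ c ξ : ℝ) with hi
  have e1 : ∑ κ, ξ κ * ξ κ = t := (normsq_eq_sum ξ).symm
  have e2 : ∑ κ, c κ * ξ κ = i := (inner_eq_sum c ξ).symm
  have hb := b_sq ξ
  rw [← ht] at hb
  have : ∀ κ, (-((m + 3 : ℝ)) * t ^ (m + 2) * b ξ ^ 3 * ξ κ) * c κ -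
      ((((2 * (m + 3 : ℝ) * (m + 2) * t ^ (m + 1) * b ξ ^ 3 * i)
       - 3 * (m + 3 : ℝ) ^ 2 * (t ^ (m + 2)) ^ 2 * b ξ ^ 5 * i) * ξ κ +
      ((m + 3 : ℝ) * t ^ (m + 2) * b ξ ^ 3) * c κ) * ξ κ + co c ξ) =
      (-2 * ((m + 3 : ℝ)) * t ^ (m + 2) * b ξ ^ 3) * (c κ * ξ κ) -
      ((2 * (m + 3 : ℝ) * (m + 2) * t ^ (m + 1) * b ξ ^ 3 * i)
       - 3 * (m + 3 : ℝ) ^ 2 * (t ^ (m + 2)) ^ 2 * b ξ ^ 5 * i) * (ξ κ * ξ κ) - co c ξ := by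
    intro κ; ring
  simp only [this, Finset.sum_sub_distrib, ← Finset.mul_sum, e1, e2]
  simp only [Finset.sum_const, Finset.card_univ, Fintype.card_fin, nsmul_eq_mul]
  unfold co lF
  rw [← ht, ← hi]
  have hb3 : b ξ ^ 3 = b ξ ^ 5 * (1 + t ^ (m + 3)) := by
    calc b ξ ^ 3 = b ξ ^ 3 * 1 := by ring
      _ = b ξ ^ 3 * (b ξ ^ 2 * (1 + t ^ (m + 3))) := by rw [hb]
      _ = _ := by ring
  rw [hb3]
  push_cast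
  ring

/-! ### bounds -/

theorem b_mul_pow_le (ξ : E (m + 3)) : b ξ * ‖ξ‖ ^ (m + 3) ≤ 1 := by
  have h := b_sq ξ
  have h1 : (b ξ * ‖ξ‖ ^ (m + 3)) ^ 2 ≤ 1 := by
    have : (b ξ * ‖ξ‖ ^ (m + 3)) ^ 2 = b ξ ^ 2 * (‖ξ‖ ^ 2) ^ (m + 3) := by
      rw [mul_pow, ← pow_mul, ← pow_mul, mul_comm 2 (m + 3)]
    rw [this]
    nlinarith [b_pos ξ, sq_nonneg (b ξ)]
  have h0 : 0 ≤ b ξ * ‖ξ‖ ^ (m + 3) := mul_nonneg (b_pos ξ).le (by positivity)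
  nlinarith

theorem bsq_mul_le (ξ : E (m + 3)) : b ξ ^ 2 * (‖ξ‖ ^ 2) ^ (m + 3) ≤ 1 := by
  have h := b_sq ξ
  nlinarith [sq_nonneg (b ξ)]

theorem abs_F_le (c ξ : E (m + 3)) : |F c ξ| ≤ ‖c‖ * ‖ξ‖ * b ξ := by
  unfold F
  rw [abs_mul, abs_of_pos (b_pos ξ)]
  exact mul_le_mul_of_nonneg_right (abs_real_inner_le_norm c ξ) (b_pos ξ).le

theorem norm_dF_le (c ξ : E (m + 3)) : ‖dF c ξ‖ ≤ (m + 4 : ℝ) * ‖c‖ * b ξ := by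
  have hb := b_pos ξ
  have h1 : ‖b ξ • c‖ = b ξ * ‖c‖ := by rw [norm_smul, Real.norm_of_nonneg hb.le]
  have h2 : ‖co c ξ • ξ‖ ≤ (m + 3 : ℝ) * ‖c‖ * b ξ := by
    rw [norm_smul, Real.norm_eq_abs]
    unfold co
    rw [abs_mul, abs_of_nonneg (by positivity : (0:ℝ) ≤ (m + 3 : ℝ) * (‖ξ‖ ^ 2) ^ (m + 2) * b ξ ^ 3)]
    have hi := abs_real_inner_le_norm c ξ
    calc (m + 3 : ℝ) * (‖ξ‖ ^ 2) ^ (m + 2) * b ξ ^ 3 * |(inner ℝ c ξ : ℝ)| * ‖ξ‖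
        ≤ (m + 3 : ℝ) * (‖ξ‖ ^ 2) ^ (m + 2) * b ξ ^ 3 * (‖c‖ * ‖ξ‖) * ‖ξ‖ := by gcongr
      _ = (m + 3 : ℝ) * ‖c‖ * b ξ * (b ξ ^ 2 * (‖ξ‖ ^ 2) ^ (m + 3)) := by ring
      _ ≤ (m + 3 : ℝ) * ‖c‖ * b ξ * 1 := by
          gcongr
          exact bsq_mul_le ξ
      _ = _ := by ring
  calc ‖dF c ξ‖ ≤ ‖b ξ • c‖ + ‖co c ξ • ξ‖ := norm_sub_le _ _
    _ ≤ b ξ * ‖c‖ + (m + 3 : ℝ) * ‖c‖ * b ξ := by rw [h1]; gcongr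
    _ = _ := by ring

theorem abs_lF_le (c ξ : E (m + 3)) : |lF c ξ| ≤ (3 * (m + 3 : ℝ) ^ 2) * ‖c‖ * b ξ ^ 2 := by
  have hb := b_pos ξ
  have hb1 := b_le_one ξ
  unfold lF
  have hi := abs_real_inner_le_norm c ξ
  rw [abs_mul, abs_mul, abs_mul, abs_neg, abs_of_nonneg (by positivity : (0:ℝ) ≤ 3 * (m + 3 : ℝ) ^ 2),
    abs_of_nonneg (by positivity : (0:ℝ) ≤ (‖ξ‖ ^ 2) ^ (m + 2)),
    abs_of_nonneg (by positivity : (0:ℝ) ≤ b ξ ^ 5)]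
  have key : (‖ξ‖ ^ 2) ^ (m + 2) * ‖ξ‖ ≤ 1 + (‖ξ‖ ^ 2) ^ (m + 3) := by
    rcases le_total ‖ξ‖ 1 with h | h
    · have h1 : (‖ξ‖ ^ 2) ^ (m + 2) ≤ 1 := by
        apply pow_le_one₀ (by positivity)
        apply pow_le_one₀ (norm_nonneg _) h
      have h2 : (‖ξ‖ ^ 2) ^ (m + 2) * ‖ξ‖ ≤ 1 * 1 := by gcongr
      have h3 : (0:ℝ) ≤ (‖ξ‖ ^ 2) ^ (m + 3) := by positivity
      linarith
    · have h1 : ‖ξ‖ ≤ ‖ξ‖ ^ 2 := by nlinarith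
      have h2 : (‖ξ‖ ^ 2) ^ (m + 2) * ‖ξ‖ ≤ (‖ξ‖ ^ 2) ^ (m + 2) * ‖ξ‖ ^ 2 := by gcongr
      rw [← pow_succ] at h2
      linarith
  calc 3 * (m + 3 : ℝ) ^ 2 * (‖ξ‖ ^ 2) ^ (m + 2) * b ξ ^ 5 * |(inner ℝ c ξ : ℝ)|
      ≤ 3 * (m + 3 : ℝ) ^ 2 * (‖ξ‖ ^ 2) ^ (m + 2) * b ξ ^ 5 * (‖c‖ * ‖ξ‖) := by gcongr
    _ = 3 * (m + 3 : ℝ) ^ 2 * ‖c‖ * b ξ ^ 5 * ((‖ξ‖ ^ 2) ^ (m + 2) * ‖ξ‖) := by ring
    _ ≤ 3 * (m + 3 : ℝ) ^ 2 * ‖c‖ * b ξ ^ 5 * (1 + (‖ξ‖ ^ 2) ^ (m + 3)) := by gcongr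
    _ = 3 * (m + 3 : ℝ) ^ 2 * ‖c‖ * b ξ ^ 3 * (b ξ ^ 2 * (1 + (‖ξ‖ ^ 2) ^ (m + 3))) := by ring
    _ = 3 * (m + 3 : ℝ) ^ 2 * ‖c‖ * b ξ ^ 2 * b ξ := by rw [b_sq]; ring
    _ ≤ 3 * (m + 3 : ℝ) ^ 2 * ‖c‖ * b ξ ^ 2 * 1 := by gcongr
    _ = _ := by ring

theorem b_le_rpow (ξ : E (m + 3)) : b ξ ≤ 2 ^ (m + 4) * (1 + ‖ξ‖) ^ (-((m + 3 : ℝ))) := by
  have hb := b_pos ξ
  have h1 : b ξ * (1 + ‖ξ‖) ^ (m + 3) ≤ 2 ^ (m + 4) := by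
    rcases le_total ‖ξ‖ 1 with h | h
    · calc b ξ * (1 + ‖ξ‖) ^ (m + 3) ≤ 1 * (1 + 1) ^ (m + 3) := by
            gcongr
            exact b_le_one ξ
        _ ≤ 2 ^ (m + 4) := by
            rw [one_mul, pow_succ (n := m + 3)]
            norm_num
    · calc b ξ * (1 + ‖ξ‖) ^ (m + 3) ≤ b ξ * (2 * ‖ξ‖) ^ (m + 3) := by
            gcongr; linarith
        _ = 2 ^ (m + 3) * (b ξ * ‖ξ‖ ^ (m + 3)) := by rw [mul_pow]; ring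
        _ ≤ 2 ^ (m + 3) * 1 := by gcongr; exact b_mul_pow_le ξ
        _ ≤ 2 ^ (m + 4) := by
            rw [mul_one]
            exact pow_le_pow_right₀ (by norm_num) (by omega)
  have h2 : (0:ℝ) < 1 + ‖ξ‖ := by positivity
  rw [Real.rpow_neg h2.le]
  have h3 : (1 + ‖ξ‖) ^ ((m + 3 : ℝ)) = (1 + ‖ξ‖) ^ (m + 3) := by
    rw [← Real.rpow_natCast]; push_cast; rfl
  rw [h3, ← div_eq_mul_inv, le_div_iff₀ (by positivity)]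
  exact h1

theorem integrable_b_rpow {p : ℝ} (hp : 1 < p) :
    Integrable (fun ξ : E (m + 3) => b ξ ^ p) := by
  have hr : (Module.finrank ℝ (E (m + 3)) : ℝ) < (m + 3 : ℝ) * p := by
    rw [finrank_euclideanSpace_fin]
    push_cast
    have : (0:ℝ) < m + 3 := by positivity
    nlinarith
  have h := (integrable_one_add_norm (E := E (m + 3)) (μ := volume) hr).const_mul
    ((2 ^ (m + 4) : ℝ) ^ p)
  refine h.mono' ?_ ?_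
  · exact ((contDiff_b.continuous).rpow_const fun x => Or.inl (b_pos x).ne').aestronglyMeasurable
  · refine Filter.Eventually.of_forall fun ξ => ?_
    have hb := b_pos ξ
    rw [Real.norm_of_nonneg (Real.rpow_nonneg hb.le _)]
    calc b ξ ^ p ≤ (2 ^ (m + 4) * (1 + ‖ξ‖) ^ (-((m + 3 : ℝ)))) ^ p :=
          Real.rpow_le_rpow hb.le (b_le_rpow ξ) (by linarith)
      _ = _ := by
          rw [Real.mul_rpow (by positivity) (by positivity), ← Real.rpow_mul (by positivity)]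
          ring_nf

end Pool.Agent.R525.HJ
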