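import Pool.Agent.R525.HJ.Seq

/-!
# `L^p` bounds of the sum
-/

set_option autoImplicit false

open Set Metric MeasureTheory Filter Topology
open scoped ContDiff ENNReal

namespace Pool.Agent.R525.HJ

variable {m : ℕ}

theorem eLpNorm_hasSum_le {α : Type*} [MeasurableSpace α] {μ : Measure α} {p : ℝ≥0∞}
    (hp : 1 ≤ p) {f : ℕ → α → ℝ} {g : α → ℝ} (hf : ∀ j, AEStronglyMeasurable (f j) μ)
    (h : ∀ x, HasSum (fun j => f j x) (g x)) : eLpNorm g p μ ≤ ∑' j, eLpNorm (f j) p μ := by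
  have h1 : ∀ x, Tendsto (fun N => (∑ j ∈ Finset.range N, f j) x) atTop (𝓝 (g x)) := by
    intro x
    simpa using (h x).tendsto_sum_nat
  have h2 := Lp.eLpNorm_lim_le_liminf_eLpNorm (p := p) (μ := μ)
    (f := fun N => ∑ j ∈ Finset.range N, f j)
    (fun N => Finset.aestronglyMeasurable_sum _ fun j _ => hf j) g (Eventually.of_forall h1)
  refine h2.trans (liminf_le_of_le (by isBoundedDefault) fun c hc => ?_)
  obtain ⟨N, hN⟩ := hc.exists
  refine hN.trans ((eLpNorm_sum_le (fun j _ => hf j) hp).trans ?_)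
  exact ENNReal.sum_le_tsum _

theorem continuous_a (j : ℕ) : Continuous (a (m := m) j) := (contDiff_a j).continuous

theorem measurable_H : Measurable (H (m := m)) := by
  refine measurable_of_tendsto_metrizable (f := fun N x => ∑ j ∈ Finset.range N, a j x)
    (fun N => ?_) ?_
  · exact (continuous_finsetSum _ fun j _ => continuous_a j).measurable
  · rw [tendsto_pi_nhds]
    intro x
    exact (hasSum_H x).tendsto_sum_nat

theorem measurable_D (c : E (m + 3)) : Measurable (D c) := by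
  refine measurable_of_tendsto_metrizable (f := fun N x => ∑ j ∈ Finset.range N, gt c j x)
    (fun N => ?_) ?_
  · exact (continuous_finsetSum _ fun j _ => (contDiff_dFs c _ _).continuous).measurable
  · rw [tendsto_pi_nhds]
    intro x
    exact (summable_gt c x).hasSum.tendsto_sum_nat

theorem measurable_L (c : E (m + 3)) : Measurable (L c) := by
  refine measurable_of_tendsto_metrizable (f := fun N x => ∑ j ∈ Finset.range N, lt c j x)
    (fun N => ?_) ?_
  · exact (continuous_finsetSum _ fun j _ => (contDiff_lFs c _ _).continuous).measurable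
  · rw [tendsto_pi_nhds]
    intro x
    exact (summable_lt c x).hasSum.tendsto_sum_nat

/-- the constant -/
noncomputable def cb (m : ℕ) (p : ℝ) : ℝ := ∫ ξ : E (m + 3), b ξ ^ p

theorem cb_nonneg (p : ℝ) : 0 ≤ cb m p :=
  integral_nonneg fun ξ => Real.rpow_nonneg (b_pos ξ).le _

theorem memLp_a {p : ℝ} (hp : 1 < p) (j : ℕ) :
    MemLp (a (m := m) j) (ENNReal.ofReal p) volume := by
  have hp0 : 0 < p := by linarith
  rw [← integrable_norm_rpow_iff (continuous_a j).aestronglyMeasurable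
    (by simpa using hp0) ENNReal.ofReal_ne_top, ENNReal.toReal_ofReal hp0.le]
  refine (integrable_A_rpow hp (r_pos j) (X (m := m) j)).congr (Eventually.of_forall fun x => ?_)
  simp only
  rw [Real.norm_of_nonneg (a_pos j x).le]
  rfl

theorem eLpNorm_a {p : ℝ} (hp : 1 < p) (j : ℕ) :
    eLpNorm (a (m := m) j) (ENNReal.ofReal p) volume =
      ENNReal.ofReal (ρ j ^ (2 * (((m + 3 : ℝ) - p) / p)) * cb m p ^ (p⁻¹)) := by
  have hp0 : 0 < p := by linarith
  rw [(memLp_a hp j).eLpNorm_eq_integral_rpow_norm (by simpa using hp0) ENNReal.ofReal_ne_top,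
    ENNReal.toReal_ofReal hp0.le]
  have h1 : ∫ x : E (m + 3), ‖a j x‖ ^ p = r j ^ ((m + 3 : ℝ) - p) * cb m p := by
    rw [cb, ← integral_A_rpow (r_pos j) (X (m := m) j)]
    apply integral_congr_ae
    refine Eventually.of_forall fun x => ?_
    simp only
    rw [Real.norm_of_nonneg (a_pos j x).le]
    rfl
  rw [h1, Real.mul_rpow (Real.rpow_nonneg (r_pos j).le _) (cb_nonneg p)]
  congr 2
  unfold r
  rw [← Real.rpow_natCast, ← Real.rpow_mul (ρ_pos j).le, ← Real.rpow_mul (ρ_pos j).le]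
  congr 1
  push_cast
  ring

/-- volume of the unit ball -/
noncomputable def vb (m : ℕ) : ℝ := (volume (ball (0 : E (m + 3)) 1)).toReal

theorem volume_ball' {t : ℝ} (ht : 0 ≤ t) (x : E (m + 3)) :
    volume (ball x t) = ENNReal.ofReal (t ^ (m + 3) * vb m) := by
  rw [Measure.addHaar_ball volume x ht, finrank_euclideanSpace_fin,
    ENNReal.ofReal_mul (by positivity), vb, ENNReal.ofReal_toReal measure_ball_lt_top.ne]

theorem vb_nonneg : 0 ≤ vb m := ENNReal.toReal_nonneg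

theorem eLpNorm_a_ball {p : ℝ} (hp : 1 < p) {j : ℕ} {t : ℝ} (ht : 0 < t) (h : t < ρ j / 2) :
    eLpNorm (a (m := m) j) (ENNReal.ofReal p) (volume.restrict (ball 0 t)) ≤
      ENNReal.ofReal ((t ^ (m + 3) * vb m) ^ (p⁻¹) * (2 ^ (m + 3) * ρ j)) := by
  have hp0 : 0 < p := by linarith
  have h1 : ∀ᵐ x ∂(volume.restrict (ball (0 : E (m + 3)) t)), ‖a j x‖ ≤ 2 ^ (m + 3) * ρ j := by
    filter_upwards [ae_restrict_mem measurableSet_ball] with x hx
    rw [Real.norm_of_nonneg (a_pos j x).le]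
    apply a_le
    rw [mem_ball_zero_iff] at hx
    have h2 : ‖X (m := m) j‖ ≤ ‖x - X j‖ + ‖x‖ := by
      calc ‖X (m := m) j‖ = ‖x - (x - X j)‖ := by congr 1; abel
        _ ≤ ‖x‖ + ‖x - X j‖ := norm_sub_le _ _
        _ = _ := add_comm _ _
    rw [norm_X] at h2
    linarith
  refine (eLpNorm_le_of_ae_bound h1).trans ?_
  rw [Measure.restrict_apply_univ, volume_ball' ht.le, ENNReal.toReal_ofReal hp0.le,
    ENNReal.ofReal_rpow_of_nonneg (by have := vb_nonneg (m := m); positivity) (by positivity),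
    ← ENNReal.ofReal_mul (by have := vb_nonneg (m := m); positivity)]

theorem key {p : ℝ} (hp : 1 < p) (hpn : p < m + 3) :
    ∃ K ε : ℝ, 0 ≤ K ∧ 0 < ε ∧ ∀ j, ∀ t, 0 < t → t ≤ 1 →
      eLpNorm (a (m := m) j) (ENNReal.ofReal p) (volume.restrict (ball 0 t)) ≤
        ENNReal.ofReal (K * ρ j ^ ε * t ^ (((m + 3 : ℝ) - p) / p + ε)) := by
  have hp0 : 0 < p := by linarith
  set θ : ℝ := ((m + 3 : ℝ) - p) / p with hθ
  have hθ0 : 0 < θ := div_pos (by linarith) hp0
  set ε : ℝ := min (θ / 2) 1 with hε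
  have hε0 : 0 < ε := lt_min (by linarith) one_pos
  have hε1 : ε ≤ θ / 2 := min_le_left _ _
  have hε2 : ε ≤ 1 := min_le_right _ _
  have hc := Real.rpow_nonneg (cb_nonneg (m := m) p) (p⁻¹)
  have hv := Real.rpow_nonneg (vb_nonneg (m := m)) (p⁻¹)
  refine ⟨cb m p ^ (p⁻¹) * 2 ^ (θ + ε) + vb m ^ (p⁻¹) * 2 ^ (m + 3), ε, by positivity, hε0, ?_⟩
  intro j t ht ht1
  have hρ := ρ_pos j
  have hρ1 : ρ j ≤ 1 := (ρ_le j).trans (by norm_num)
  rcases le_or_gt (ρ j / 2) t with h | h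
  · have h1 : eLpNorm (a (m := m) j) (ENNReal.ofReal p) (volume.restrict (ball 0 t)) ≤
        eLpNorm (a (m := m) j) (ENNReal.ofReal p) volume :=
      eLpNorm_mono_measure _ Measure.restrict_le_self
    refine h1.trans ?_
    rw [eLpNorm_a hp j]
    apply ENNReal.ofReal_le_ofReal
    rw [← hθ]
    have e1 : ρ j ^ (2 * θ) = ρ j ^ ε * ρ j ^ (2 * θ - ε) := by
      rw [← Real.rpow_add hρ]; congr 1; ring
    have e2 : ρ j ^ (2 * θ - ε) ≤ ρ j ^ (θ + ε) :=
      Real.rpow_le_rpow_of_exponent_ge hρ hρ1 (by linarith)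
    have e3 : ρ j ^ (θ + ε) ≤ (2 * t) ^ (θ + ε) :=
      Real.rpow_le_rpow hρ.le (by linarith) (by linarith)
    have e4 : (2 * t) ^ (θ + ε) = 2 ^ (θ + ε) * t ^ (θ + ε) :=
      Real.mul_rpow (by norm_num) ht.le
    have p1 : 0 < ρ j ^ ε := Real.rpow_pos_of_pos hρ _
    have p2 : 0 < t ^ (θ + ε) := Real.rpow_pos_of_pos ht _
    calc ρ j ^ (2 * θ) * cb m p ^ p⁻¹
        = ρ j ^ ε * ρ j ^ (2 * θ - ε) * cb m p ^ p⁻¹ := by rw [e1]
      _ ≤ ρ j ^ ε * (2 ^ (θ + ε) * t ^ (θ + ε)) * cb m p ^ p⁻¹ := by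
          have := e2.trans (e3.trans e4.le)
          gcongr
      _ = cb m p ^ p⁻¹ * 2 ^ (θ + ε) * ρ j ^ ε * t ^ (θ + ε) := by ring
      _ ≤ (cb m p ^ (p⁻¹) * 2 ^ (θ + ε) + vb m ^ (p⁻¹) * 2 ^ (m + 3)) * ρ j ^ ε * t ^ (θ + ε) := by
          gcongr
          have : 0 ≤ vb m ^ (p⁻¹) * 2 ^ (m + 3) := by positivity
          linarith
  · refine (eLpNorm_a_ball hp ht h).trans ?_
    apply ENNReal.ofReal_le_ofReal
    have e1 : (t ^ (m + 3) * vb m) ^ (p⁻¹) = t ^ (θ + 1) * vb m ^ (p⁻¹) := by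
      rw [Real.mul_rpow (by positivity) vb_nonneg, ← Real.rpow_natCast, ← Real.rpow_mul ht.le]
      congr 2
      rw [hθ]
      push_cast
      field_simp
      ring
    have e2 : t ^ (θ + 1) ≤ t ^ (θ + ε) :=
      Real.rpow_le_rpow_of_exponent_ge ht ht1 (by linarith)
    have e3 : ρ j ≤ ρ j ^ ε := by
      calc ρ j = ρ j ^ (1:ℝ) := (Real.rpow_one _).symm
        _ ≤ ρ j ^ ε := Real.rpow_le_rpow_of_exponent_ge hρ hρ1 hε2
    have p1 : 0 < ρ j ^ ε := Real.rpow_pos_of_pos hρ _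
    have p2 : 0 < t ^ (θ + ε) := Real.rpow_pos_of_pos ht _
    calc (t ^ (m + 3) * vb m) ^ (p⁻¹) * (2 ^ (m + 3) * ρ j)
        = t ^ (θ + 1) * vb m ^ (p⁻¹) * (2 ^ (m + 3) * ρ j) := by rw [e1]
      _ ≤ t ^ (θ + ε) * vb m ^ (p⁻¹) * (2 ^ (m + 3) * ρ j ^ ε) := by gcongr
      _ = vb m ^ (p⁻¹) * 2 ^ (m + 3) * ρ j ^ ε * t ^ (θ + ε) := by ring
      _ ≤ (cb m p ^ (p⁻¹) * 2 ^ (θ + ε) + vb m ^ (p⁻¹) * 2 ^ (m + 3)) * ρ j ^ ε * t ^ (θ + ε) := by
          gcongr
          have : 0 ≤ cb m p ^ (p⁻¹) * 2 ^ (θ + ε) := by positivity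
          linarith

theorem keyH {p : ℝ} (hp : 1 < p) (hpn : p < m + 3) :
    ∃ K ε : ℝ, 0 ≤ K ∧ 0 < ε ∧ ∀ t, 0 < t → t ≤ 1 →
      eLpNorm (H (m := m)) (ENNReal.ofReal p) (volume.restrict (ball 0 t)) ≤
        ENNReal.ofReal (K * t ^ (((m + 3 : ℝ) - p) / p + ε)) := by
  obtain ⟨K, ε, hK, hε, h⟩ := key (m := m) hp hpn
  refine ⟨K * ∑' j, ρ j ^ ε, ε,
    mul_nonneg hK (tsum_nonneg fun j => Real.rpow_nonneg (ρ_pos j).le _), hε, ?_⟩
  intro t ht ht1
  have hp1 : (1 : ℝ≥0∞) ≤ ENNReal.ofReal p := by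
    rw [← ENNReal.ofReal_one]; exact ENNReal.ofReal_le_ofReal hp.le
  refine (eLpNorm_hasSum_le hp1 (fun j => (continuous_a j).aestronglyMeasurable) hasSum_H).trans ?_
  refine (ENNReal.tsum_le_tsum fun j => h j t ht ht1).trans ?_
  have hs : Summable fun j => K * ρ j ^ ε * t ^ (((m + 3 : ℝ) - p) / p + ε) :=
    ((summable_ρ_rpow hε).mul_left K).mul_right _
  rw [← ENNReal.ofReal_tsum_of_nonneg _ hs]
  · rw [tsum_mul_right, tsum_mul_left]
  · intro j
    have := Real.rpow_nonneg (ρ_pos j).le ε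
    positivity

theorem memLp_H {p : ℝ} (hp : 1 < p) (hpn : p < m + 3) :
    MemLp (H (m := m)) (ENNReal.ofReal p) (volume.restrict (ball 0 1)) := by
  obtain ⟨K, ε, -, -, h⟩ := keyH (m := m) hp hpn
  exact ⟨measurable_H.aestronglyMeasurable,
    (h 1 one_pos le_rfl).trans_lt ENNReal.ofReal_lt_top⟩

theorem integral_H_le {p : ℝ} (hp : 1 < p) (hpn : p < m + 3) :
    ∃ K ε : ℝ, 0 ≤ K ∧ 0 < ε ∧ ∀ t, 0 < t → t ≤ 1 →
      ∫ x in ball (0 : E (m + 3)) t, H x ^ p ≤ K * t ^ ((m + 3 : ℝ) - p + ε) := by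
  have hp0 : 0 < p := by linarith
  obtain ⟨K, ε, hK, hε, h⟩ := keyH (m := m) hp hpn
  refine ⟨K ^ p, ε * p, by positivity, by positivity, fun t ht ht1 => ?_⟩
  have hm : MemLp (H (m := m)) (ENNReal.ofReal p) (volume.restrict (ball 0 t)) :=
    ⟨measurable_H.aestronglyMeasurable, (h t ht ht1).trans_lt ENNReal.ofReal_lt_top⟩
  have h1 := h t ht ht1
  rw [hm.eLpNorm_eq_integral_rpow_norm (by simpa using hp0) ENNReal.ofReal_ne_top,
    ENNReal.toReal_ofReal hp0.le, ENNReal.ofReal_le_ofReal_iff (by positivity)] at h1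
  have h2 : ∫ x in ball (0 : E (m + 3)) t, ‖H x‖ ^ p = ∫ x in ball (0 : E (m + 3)) t, H x ^ p := by
    apply integral_congr_ae
    refine Eventually.of_forall fun x => ?_
    simp only
    rw [Real.norm_of_nonneg (H_pos x).le]
  rw [h2] at h1
  have h0 : 0 ≤ ∫ x in ball (0 : E (m + 3)) t, H x ^ p :=
    integral_nonneg fun x => Real.rpow_nonneg (H_pos x).le _
  have h3 := Real.rpow_le_rpow (Real.rpow_nonneg h0 _) h1 hp0.le
  rw [← Real.rpow_mul h0, inv_mul_cancel₀ hp0.ne', Real.rpow_one, Real.mul_rpow hK (by positivity),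
    ← Real.rpow_mul ht.le] at h3
  refine h3.trans (le_of_eq ?_)
  congr 2
  field_simp

/-! ### the `L^1` bounds -/

theorem integrableOn_a_sq (j : ℕ) : Integrable (fun x : E (m + 3) => a j x ^ 2) := by
  have h := integrable_A_rpow (p := 2) (by norm_num) (r_pos j) (X (m := m) j)
  refine h.congr (Eventually.of_forall fun x => ?_)
  simp only [Real.rpow_two]
  rfl

theorem integral_a_sq_le (j : ℕ) :
    ∫ x in ball (0 : E (m + 3)) 1, a j x ^ 2 ≤ cb m 2 * r j := by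
  have h0 : ∫ x : E (m + 3), a j x ^ 2 = r j ^ ((m + 3 : ℝ) - 2) * cb m 2 := by
    rw [cb, ← integral_A_rpow (r_pos j) (X (m := m) j)]
    apply integral_congr_ae
    refine Eventually.of_forall fun x => ?_
    simp only [Real.rpow_two]
    rfl
  calc ∫ x in ball (0 : E (m + 3)) 1, a j x ^ 2 ≤ ∫ x : E (m + 3), a j x ^ 2 :=
        setIntegral_le_integral (integrableOn_a_sq j) (Eventually.of_forall fun x => sq_nonneg _)
    _ = r j ^ ((m + 3 : ℝ) - 2) * cb m 2 := h0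
    _ ≤ r j ^ (1 : ℝ) * cb m 2 := by
        have := cb_nonneg (m := m) 2
        have h1 : r j ^ ((m + 3 : ℝ) - 2) ≤ r j ^ (1 : ℝ) :=
          Real.rpow_le_rpow_of_exponent_ge (r_pos j)
            ((r_le j).trans ((ρ_le j).trans (by norm_num)))
            (by have : (0:ℝ) ≤ m := by positivity
                linarith)
        gcongr
    _ = _ := by rw [Real.rpow_one, mul_comm]

theorem integral_a_le (j : ℕ) :
    ∫ x in ball (0 : E (m + 3)) 1, a j x ≤ (vb m + cb m 2) * ρ j := by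
  have hρ := ρ_pos j
  have h1 : ∀ x : E (m + 3), a j x ≤ ρ j + (ρ j)⁻¹ * a j x ^ 2 := by
    intro x
    have h2 := a_pos j x
    have h3 : a j x * ρ j ≤ ρ j ^ 2 + a j x ^ 2 := by nlinarith [sq_nonneg (a j x - ρ j)]
    have h4 : a j x ≤ (ρ j ^ 2 + a j x ^ 2) / ρ j := (le_div_iff₀ hρ).2 h3
    refine h4.trans (le_of_eq ?_)
    field_simp
  have hi1 : IntegrableOn (fun x : E (m + 3) => a j x) (ball 0 1) :=
    ((continuous_a j).continuousOn.integrableOn_compact (isCompact_closedBall 0 1)).mono_set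
      ball_subset_closedBall
  have hi2 : IntegrableOn (fun _ : E (m + 3) => ρ j) (ball 0 1) :=
    integrableOn_const measure_ball_lt_top.ne
  have hi3 : IntegrableOn (fun x : E (m + 3) => (ρ j)⁻¹ * a j x ^ 2) (ball 0 1) :=
    ((integrableOn_a_sq j).const_mul _).integrableOn
  calc ∫ x in ball (0 : E (m + 3)) 1, a j x
      ≤ ∫ x in ball (0 : E (m + 3)) 1, (ρ j + (ρ j)⁻¹ * a j x ^ 2) :=
        setIntegral_mono hi1 (hi2.add hi3) h1
    _ = vb m * ρ j + (ρ j)⁻¹ * ∫ x in ball (0 : E (m + 3)) 1, a j x ^ 2 := by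
        rw [integral_add hi2 hi3, integral_const_mul, setIntegral_const, smul_eq_mul]
        rfl
    _ ≤ vb m * ρ j + (ρ j)⁻¹ * (cb m 2 * r j) := by
        have := integral_a_sq_le (m := m) j
        gcongr
    _ = _ := by unfold r; field_simp

end Pool.Agent.R525.HJ
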