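import Pool.Agent.R525.HJ.Vec

/-!
# Decay of the Morrey quantities and failure of continuity
-/

set_option autoImplicit false

open Set Metric MeasureTheory Filter Topology
open scoped ContDiff ENNReal

namespace Pool.Agent.R525.HJ

variable {m k : ℕ}

theorem integrableOn_H_rpow {p : ℝ} (hp : 1 < p) (hpn : p < m + 3) :
    IntegrableOn (fun x => H (m := m) x ^ p) (ball 0 1) := by
  have hp0 : 0 < p := by linarith
  have h := (memLp_H (m := m) hp hpn)
  have h2 := (integrable_norm_rpow_iff h.1 (by simpa using hp0) ENNReal.ofReal_ne_top).2 h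
  rw [ENNReal.toReal_ofReal hp0.le] at h2
  refine h2.congr (Eventually.of_forall fun x => ?_)
  simp only
  rw [Real.norm_of_nonneg (H_pos x).le]

theorem norm_GG_rpow_le {p : ℝ} (hp : 1 < p) (x : E (m + 3)) :
    ‖GG m k x‖ ^ p ≤ ((k + 2 : ℝ) * (m + 4)) ^ p * H x ^ p := by
  rw [← Real.mul_rpow (by positivity) (H_pos x).le]
  exact Real.rpow_le_rpow (norm_nonneg _) (norm_GG_le x) (by linarith)

theorem mor_zero {p : ℝ} (hp : 1 < p) (hpn : p < m + 3) :
    ∃ C ε : ℝ, 0 < ε ∧ ∀ t, 0 < t → t ≤ 1 →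
      (∫ x in ball (0 : E (m + 3)) t, ‖GG m k x‖ ^ p) / t ^ (((m + 3 : ℕ) : ℝ) - p) ≤ C * t ^ ε := by
  obtain ⟨K, ε, hK, hε, h⟩ := integral_H_le (m := m) hp hpn
  refine ⟨((k + 2 : ℝ) * (m + 4)) ^ p * K, ε, hε, fun t ht ht1 => ?_⟩
  have h1 : ∫ x in ball (0 : E (m + 3)) t, ‖GG m k x‖ ^ p ≤
      ((k + 2 : ℝ) * (m + 4)) ^ p * ∫ x in ball (0 : E (m + 3)) t, H x ^ p := by
    rw [← integral_const_mul]
    have hi : IntegrableOn (fun x => H (m := m) x ^ p) (ball 0 t) :=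
      (integrableOn_H_rpow hp hpn).mono_set (ball_subset_ball ht1)
    refine integral_mono_of_nonneg (Eventually.of_forall fun x => by positivity)
      (hi.const_mul _) (Eventually.of_forall fun x => norm_GG_rpow_le hp x)
  rw [div_le_iff₀ (by positivity)]
  have h2 := h t ht ht1
  calc ∫ x in ball (0 : E (m + 3)) t, ‖GG m k x‖ ^ p
      ≤ ((k + 2 : ℝ) * (m + 4)) ^ p * (K * t ^ ((m + 3 : ℝ) - p + ε)) := by
        refine h1.trans ?_
        gcongr
    _ = ((k + 2 : ℝ) * (m + 4)) ^ p * K * t ^ ε * t ^ (((m + 3 : ℕ) : ℝ) - p) := by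
        rw [Real.rpow_add ht]
        push_cast
        ring

theorem mor_ne {p : ℝ} (hp : 1 < p) {x₀ : E (m + 3)} (h0 : x₀ ≠ 0) :
    ∃ C : ℝ, ∀ t, 0 < t → t ≤ ‖x₀‖ / 2 →
      (∫ x in ball x₀ t, ‖GG m k x‖ ^ p) / t ^ (((m + 3 : ℕ) : ℝ) - p) ≤ C * t ^ p := by
  obtain ⟨B, hB0, hB⟩ := H_bdd h0
  refine ⟨(((k + 2 : ℝ) * (m + 4)) ^ p * B ^ p) * vb m, fun t ht ht1 => ?_⟩
  have hv : volume (ball x₀ t) ≠ ⊤ := measure_ball_lt_top.ne
  have h1 : ∫ x in ball x₀ t, ‖GG m k x‖ ^ p ≤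
      (((k + 2 : ℝ) * (m + 4)) ^ p * B ^ p) * (t ^ (m + 3) * vb m) := by
    have e : ∫ _x in ball x₀ t, (((k + 2 : ℝ) * (m + 4)) ^ p * B ^ p) =
        (((k + 2 : ℝ) * (m + 4)) ^ p * B ^ p) * (t ^ (m + 3) * vb m) := by
      rw [setIntegral_const, smul_eq_mul, Measure.real, volume_ball' ht.le,
        ENNReal.toReal_ofReal (by have := vb_nonneg (m := m); positivity), mul_comm]
    rw [← e]
    refine integral_mono_of_nonneg (Eventually.of_forall fun x => by positivity)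
      (integrableOn_const hv) ?_
    filter_upwards [ae_restrict_mem measurableSet_ball] with x hx
    refine (norm_GG_rpow_le hp x).trans ?_
    have h2 := hB x (ball_subset_ball ht1 hx)
    have h3 : H x ^ p ≤ B ^ p := Real.rpow_le_rpow (H_pos x).le h2 (by linarith)
    gcongr
  rw [div_le_iff₀ (by positivity)]
  refine h1.trans (le_of_eq ?_)
  have : t ^ (m + 3) = t ^ p * t ^ (((m + 3 : ℕ) : ℝ) - p) := by
    rw [← Real.rpow_add ht, ← Real.rpow_natCast]
    congr 1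
    ring
  rw [this]
  ring

theorem mor_bigO {p : ℝ} (hp : 1 < p) (hpn : p < m + 3) :
    ∃ δ : ℝ, 0 < δ ∧ ∀ x₀ : E (m + 3),
      (fun t => (∫ x in ball x₀ t, ‖GG m k x‖ ^ p) / t ^ (((m + 3 : ℕ) : ℝ) - p))
        =O[𝓝[>] 0] (fun t : ℝ => t ^ δ) := by
  obtain ⟨C, ε, hε, h⟩ := mor_zero (m := m) (k := k) hp hpn
  refine ⟨min ε 1, lt_min hε one_pos, fun x₀ => ?_⟩
  have hnn : ∀ t : ℝ, 0 < t →
      0 ≤ (∫ x in ball x₀ t, ‖GG m k x‖ ^ p) / t ^ (((m + 3 : ℕ) : ℝ) - p) := fun t ht =>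
    div_nonneg (integral_nonneg fun x => by positivity) (by positivity)
  have key : ∃ C' η : ℝ, min ε 1 ≤ η ∧ ∃ T > 0, T ≤ 1 ∧ ∀ t, 0 < t → t ≤ T →
      (∫ x in ball x₀ t, ‖GG m k x‖ ^ p) / t ^ (((m + 3 : ℕ) : ℝ) - p) ≤ C' * t ^ η := by
    by_cases h0 : x₀ = 0
    · exact ⟨C, ε, min_le_left _ _, 1, one_pos, le_rfl, fun t ht ht1 => by
        rw [h0]; exact h t ht ht1⟩
    · obtain ⟨C', h'⟩ := mor_ne (m := m) (k := k) hp h0
      have hx := norm_pos_iff.2 h0
      exact ⟨C', p, (min_le_right _ _).trans hp.le, min (‖x₀‖ / 2) 1, lt_min (by positivity) one_pos,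
        min_le_right _ _, fun t ht ht1 => h' t ht (ht1.trans (min_le_left _ _))⟩
  obtain ⟨C', η, hη, T, hT, hT1, h'⟩ := key
  refine Asymptotics.IsBigO.of_bound |C'| ?_
  filter_upwards [Ioc_mem_nhdsGT hT] with t ht
  have ht0 : 0 < t := ht.1
  rw [Real.norm_of_nonneg (hnn t ht0), Real.norm_of_nonneg (by positivity)]
  calc (∫ x in ball x₀ t, ‖GG m k x‖ ^ p) / t ^ (((m + 3 : ℕ) : ℝ) - p) ≤ C' * t ^ η :=
        h' t ht0 ht.2
    _ ≤ |C'| * t ^ η := by gcongr; exact le_abs_self _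
    _ ≤ |C'| * t ^ (min ε 1 : ℝ) := by
        have : t ^ η ≤ t ^ (min ε 1 : ℝ) :=
          Real.rpow_le_rpow_of_exponent_ge ht0 (ht.2.trans hT1) hη
        gcongr

/-! ### failure of continuity -/

theorem continuousOn_uu : ContinuousOn (uu m k) {0}ᶜ := by
  intro x hx
  have hx' : x ≠ 0 := hx
  refine ContinuousAt.continuousWithinAt ?_
  refine (PiLp.continuous_toLp 2 (fun _ : Fin (k + 2) => ℝ)).continuousAt.comp ?_
  refine continuousAt_pi.2 fun i => ?_
  exact (continuous_const.inner continuous_id).continuousAt.mul (continuousAt_H hx')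

theorem tendsto_X : Tendsto (fun j => X (m := m) j) atTop (𝓝 0) := by
  rw [tendsto_zero_iff_norm_tendsto_zero]
  simp only [norm_X]
  exact tendsto_ρ

theorem tendsto_r : Tendsto r atTop (𝓝 0) := by
  unfold r
  have := tendsto_ρ.pow 2
  simpa using this

theorem not_cont (v : E (m + 3) → E (k + 2)) (hv : ContinuousOn v (ball 0 (1 / 2))) :
    ¬ v =ᵐ[volume.restrict (ball 0 (1 / 2))] uu m k := by
  intro hae
  have hO : IsOpen (ball (0 : E (m + 3)) (1 / 2) \ {0}) := isOpen_ball.sdiff isClosed_singleton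
  have hsub : ball (0 : E (m + 3)) (1 / 2) \ {0} ⊆ ball 0 (1 / 2) := sdiff_subset
  have hae2 : v =ᵐ[volume.restrict (ball (0 : E (m + 3)) (1 / 2) \ {0})] uu m k :=
    ae_restrict_of_ae_restrict_of_subset hsub hae
  have heq : EqOn v (uu m k) (ball (0 : E (m + 3)) (1 / 2) \ {0}) :=
    Measure.eqOn_open_of_ae_eq hae2 hO (hv.mono hsub)
      (continuousOn_uu.mono fun x hx => hx.2)
  have hv0 : ContinuousAt v 0 :=
    hv.continuousAt (ball_mem_nhds _ (by norm_num))
  -- points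
  have hX0 : ∀ j, X (m := m) j ≠ 0 := fun j => by
    rw [← norm_pos_iff, norm_X]; exact ρ_pos j
  have hXb : ∀ j, X (m := m) j ∈ ball (0 : E (m + 3)) (1 / 2) \ {0} := fun j => by
    refine ⟨?_, hX0 j⟩
    rw [mem_ball_zero_iff, norm_X]
    have := ρ_le j
    linarith
  set P : ℕ → E (m + 3) := fun j => X j + r j • ev i1 with hP
  have hin0 : ∀ j, (inner ℝ (P j) (ev (m := m) 0) : ℝ) = ρ j := by
    intro j
    simp only [hP, X]
    rw [inner_add_left, inner_smul_left, inner_smul_left, inner_ev_ne ne10,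
      real_inner_self_eq_norm_sq, norm_ev]
    simp
  have hPb : ∀ j, P j ∈ ball (0 : E (m + 3)) (1 / 2) \ {0} := fun j => by
    refine ⟨?_, fun h => ?_⟩
    · rw [mem_ball_zero_iff]
      have h1 : ‖P j‖ ≤ ρ j + r j := by
        refine (norm_add_le _ _).trans (le_of_eq ?_)
        rw [norm_X, norm_smul, norm_ev, mul_one, Real.norm_of_nonneg (r_pos j).le]
      have h2 := ρ_le j
      have h3 := ρ_pos j
      have h4 : r j ≤ 1 / 16 := by unfold r; nlinarith
      linarith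
    · have h1 := hin0 j
      rw [show P j = 0 from h, inner_zero_left] at h1
      exact (ρ_pos j).ne h1
  have hvX : ∀ j, v (X j) = 0 := by
    intro j
    rw [heq (hXb j)]
    ext i
    simp only [uu, X]
    rw [inner_smul_right, inner_cc]
    simp
  have hvP : ∀ j, (√2)⁻¹ ≤ ‖v (P j)‖ := by
    intro j
    rw [heq (hPb j)]
    have h1 : (uu m k (P j)) 0 = r j * H (P j) := by
      simp only [uu, cc_zero, hP, X]
      rw [inner_add_right, inner_smul_right, inner_smul_right, inner_ev_ne ne10,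
        real_inner_self_eq_norm_sq, norm_ev]
      simp
    have h2 : (√2)⁻¹ ≤ r j * H (P j) := by
      have h3 := a_at (norm_ev (m := m) i1) j
      have h4 := a_le_H j (P j)
      have h5 : r j * a j (P j) = (√2)⁻¹ := by
        rw [hP, h3, ← mul_assoc, mul_inv_cancel₀ (r_pos j).ne', one_mul]
      rw [← h5]
      have := r_pos j
      gcongr
    have h6 := PiLp.norm_apply_le (uu m k (P j)) 0
    rw [h1, Real.norm_of_nonneg (mul_nonneg (r_pos j).le (H_pos _).le)] at h6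
    exact h2.trans h6
  have l1 : Tendsto (fun j => v (X j)) atTop (𝓝 (v 0)) := hv0.tendsto.comp tendsto_X
  have l2 : v 0 = 0 := by
    simp only [hvX] at l1
    exact (tendsto_nhds_unique l1 tendsto_const_nhds)
  have l3 : Tendsto P atTop (𝓝 0) := by
    have := (tendsto_X (m := m)).add (tendsto_r.smul_const (ev (m := m) i1))
    simpa using this
  have l4 : Tendsto (fun j => ‖v (P j)‖) atTop (𝓝 ‖v 0‖) := (hv0.tendsto.comp l3).norm
  have l5 := ge_of_tendsto' l4 hvP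
  rw [l2, norm_zero] at l5
  have : (0:ℝ) < (√2)⁻¹ := by positivity
  linarith

end Pool.Agent.R525.HJ
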