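import Pool.Agent.R525.HJ.Bub2

/-!
# Scaled bubbles and integration by parts for each of them
-/

set_option autoImplicit false

open Set Metric MeasureTheory
open scoped ContDiff

namespace Pool.Agent.R525.HJ

variable {m : ℕ}

/-- the scaling -/
noncomputable def S (s : ℝ) (X x : E (m + 3)) : E (m + 3) := s⁻¹ • (x - X)

/-- the size of the gradient of the scaled bubble -/
noncomputable def A (s : ℝ) (X x : E (m + 3)) : ℝ := s⁻¹ * b (S s X x)

/-- the scaled bubble -/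
noncomputable def Fs (c : E (m + 3)) (s : ℝ) (X x : E (m + 3)) : ℝ := F c (S s X x)

/-- its gradient -/
noncomputable def dFs (c : E (m + 3)) (s : ℝ) (X x : E (m + 3)) : E (m + 3) :=
  s⁻¹ • dF c (S s X x)

/-- its Laplacian -/
noncomputable def lFs (c : E (m + 3)) (s : ℝ) (X x : E (m + 3)) : ℝ :=
  s⁻¹ ^ 2 * lF c (S s X x)

theorem contDiff_S (s : ℝ) (X : E (m + 3)) : ContDiff ℝ ∞ (S s X) :=
  (contDiff_id.sub contDiff_const).const_smul _

theorem hasFDerivAt_S (s : ℝ) (X x : E (m + 3)) :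
    HasFDerivAt (S s X) (s⁻¹ • ContinuousLinearMap.id ℝ (E (m + 3))) x := by
  have h := ((hasFDerivAt_id (𝕜 := ℝ) x).sub_const X).const_smul (s⁻¹ : ℝ)
  exact h

theorem contDiff_A (s : ℝ) (X : E (m + 3)) : ContDiff ℝ ∞ (A s X) :=
  contDiff_const.mul (contDiff_b.comp (contDiff_S s X))

theorem contDiff_Fs (c : E (m + 3)) (s : ℝ) (X : E (m + 3)) : ContDiff ℝ ∞ (Fs c s X) :=
  (contDiff_F c).comp (contDiff_S s X)

theorem contDiff_dFs (c : E (m + 3)) (s : ℝ) (X : E (m + 3)) : ContDiff ℝ ∞ (dFs c s X) :=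
  ((contDiff_dF c).comp (contDiff_S s X)).const_smul _

theorem contDiff_lFs (c : E (m + 3)) (s : ℝ) (X : E (m + 3)) : ContDiff ℝ ∞ (lFs c s X) :=
  contDiff_const.mul ((contDiff_lF c).comp (contDiff_S s X))

theorem fderiv_comp_S {g : E (m + 3) → ℝ} (hg : ContDiff ℝ ∞ g) (s : ℝ) (X x v : E (m + 3)) :
    fderiv ℝ (fun y => g (S s X y)) x v = s⁻¹ * fderiv ℝ g (S s X x) v := by
  have h1 : HasFDerivAt g (fderiv ℝ g (S s X x)) (S s X x) :=
    ((hg.differentiable (by simp)) _).hasFDerivAt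
  have h2 := h1.comp x (hasFDerivAt_S s X x)
  have h3 : HasFDerivAt (fun y => g (S s X y)) _ x := h2
  rw [h3.fderiv]
  simp

theorem fderiv_Fs (c : E (m + 3)) (s : ℝ) (X x v : E (m + 3)) :
    fderiv ℝ (Fs c s X) x v = inner ℝ (dFs c s X x) v := by
  have h := fderiv_comp_S (contDiff_F c) s X x v
  have h2 : Fs c s X = fun y => F c (S s X y) := rfl
  rw [h2, h, (hasFDerivAt_F c _).fderiv, innerSL_apply_apply, dFs, inner_smul_left]
  simp

theorem contDiff_coord {f : E (m + 3) → E (m + 3)} (hf : ContDiff ℝ ∞ f) (κ : Fin (m + 3)) :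
    ContDiff ℝ ∞ (fun x => f x κ) :=
  (EuclideanSpace.proj (𝕜 := ℝ) κ).contDiff.comp hf

theorem trace_dFs (c : E (m + 3)) (s : ℝ) (X x : E (m + 3)) :
    ∑ κ, fderiv ℝ (fun y => dFs c s X y κ) x (ev κ) = lFs c s X x := by
  have h : ∀ κ, fderiv ℝ (fun y => dFs c s X y κ) x (ev κ) =
      s⁻¹ ^ 2 * fderiv ℝ (fun y => dF c y κ) (S s X x) (ev κ) := by
    intro κ
    have h1 : (fun y => dFs c s X y κ) = fun y => s⁻¹ * dF c (S s X y) κ := by
      ext y; simp [dFs]
    have h2 := contDiff_coord (contDiff_dF c) κ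
    have h3 := fderiv_comp_S h2 s X x (ev κ)
    rw [h1]
    have h4 : DifferentiableAt ℝ (fun y => dF c (S s X y) κ) x :=
      ((h2.comp (contDiff_S s X)).differentiable (by simp)) x
    rw [fderiv_const_mul h4, _root_.smul_apply, h3, smul_eq_mul]
    ring
  simp only [h, ← Finset.mul_sum, trace_dF]
  rfl

/-! ### integration by parts -/

theorem ibp {f φ : E (m + 3) → ℝ} (hf : ContDiff ℝ ∞ f) (hφ : ContDiff ℝ ∞ φ)
    (hc : HasCompactSupport φ) (v : E (m + 3)) :
    ∫ x, f x * fderiv ℝ φ x v = -∫ x, fderiv ℝ f x v * φ x := by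
  have hf1 : Continuous fun x => fderiv ℝ f x v :=
    (hf.continuous_fderiv (by simp)).clm_apply continuous_const
  have hφ1 : Continuous fun x => fderiv ℝ φ x v :=
    (hφ.continuous_fderiv (by simp)).clm_apply continuous_const
  have hc1 : HasCompactSupport fun x => fderiv ℝ φ x v := hc.fderiv_apply ℝ v
  refine integral_mul_fderiv_eq_neg_fderiv_mul_of_integrable ?_ ?_ ?_ ?_ ?_
  · exact (hf1.mul hφ.continuous).integrable_of_hasCompactSupport hc.mul_left
  · exact (hf.continuous.mul hφ1).integrable_of_hasCompactSupport hc1.mul_left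
  · exact (hf.continuous.mul hφ.continuous).integrable_of_hasCompactSupport hc.mul_left
  · intro x _; exact (hf.differentiable (by simp)) x
  · intro x _; exact (hφ.differentiable (by simp)) x

theorem inner_gradient' (g : E (m + 3)) (φ : E (m + 3) → ℝ) (x : E (m + 3)) :
    (inner ℝ g (gradient φ x) : ℝ) = fderiv ℝ φ x g := by
  rw [real_inner_comm, gradient, InnerProductSpace.toDual_symm_apply]

theorem fderiv_eq_sum (φ : E (m + 3) → ℝ) (x g : E (m + 3)) :
    fderiv ℝ φ x g = ∑ κ, g κ * fderiv ℝ φ x (ev κ) := by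
  have h : g = ∑ κ, g κ • ev κ := by
    have := (EuclideanSpace.basisFun (Fin (m + 3)) ℝ).sum_repr g
    simp only [EuclideanSpace.basisFun_repr, EuclideanSpace.basisFun_apply] at this
    exact this.symm
  conv_lhs => rw [h]
  rw [map_sum]
  simp

theorem ibp_ball {g : E (m + 3) → ℝ} {K : Set (E (m + 3))} (hK : K ⊆ ball 0 1)
    (h : ∀ x, x ∉ K → g x = 0) : ∫ x in ball (0 : E (m + 3)) 1, g x = ∫ x, g x :=
  setIntegral_eq_integral_of_forall_compl_eq_zero fun x hx => h x fun h' => hx (hK h')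

theorem fderiv_zero_off {φ : E (m + 3) → ℝ} {x : E (m + 3)} (hx : x ∉ tsupport φ) :
    fderiv ℝ φ x = 0 := by
  by_contra h
  exact hx (support_fderiv_subset ℝ (f := φ) h)

theorem bub_grad (c : E (m + 3)) (s : ℝ) (X : E (m + 3)) {φ : E (m + 3) → ℝ}
    (hφ : ContDiff ℝ ∞ φ) (hc : HasCompactSupport φ) (hs : tsupport φ ⊆ ball 0 1)
    (v : E (m + 3)) :
    ∫ x in ball (0 : E (m + 3)) 1, Fs c s X x * fderiv ℝ φ x v =
      -∫ x in ball (0 : E (m + 3)) 1, inner ℝ (dFs c s X x) v * φ x := by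
  rw [ibp_ball hs (g := fun x => Fs c s X x * fderiv ℝ φ x v), ibp_ball hs (g := fun x => inner ℝ (dFs c s X x) v * φ x),
    ibp (contDiff_Fs c s X) hφ hc v]
  · simp only [fderiv_Fs]
  · intro x hx
    rw [image_eq_zero_of_notMem_tsupport hx, mul_zero]
  · intro x hx
    rw [fderiv_zero_off hx]
    simp

theorem bub_eq (c : E (m + 3)) (s : ℝ) (X : E (m + 3)) {φ : E (m + 3) → ℝ}
    (hφ : ContDiff ℝ ∞ φ) (hc : HasCompactSupport φ) (hs : tsupport φ ⊆ ball 0 1) :
    ∫ x in ball (0 : E (m + 3)) 1, fderiv ℝ φ x (dFs c s X x) =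
      -∫ x in ball (0 : E (m + 3)) 1, lFs c s X x * φ x := by
  rw [ibp_ball hs (g := fun x => fderiv ℝ φ x (dFs c s X x)), ibp_ball hs (g := fun x => lFs c s X x * φ x)]
  · simp only [fderiv_eq_sum φ _ (dFs c s X _)]
    have hφ1 : ∀ v : E (m + 3), Continuous fun x => fderiv ℝ φ x v := fun v =>
      (hφ.continuous_fderiv (by simp)).clm_apply continuous_const
    have hc1 : ∀ v : E (m + 3), HasCompactSupport fun x => fderiv ℝ φ x v := fun v =>
      hc.fderiv_apply ℝ v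
    have hd : ∀ κ, ContDiff ℝ ∞ (fun x => dFs c s X x κ) := fun κ =>
      contDiff_coord (contDiff_dFs c s X) κ
    rw [integral_finsetSum]
    · rw [Finset.sum_congr rfl fun κ _ => ibp (hd κ) hφ hc (ev κ)]
      rw [Finset.sum_neg_distrib, ← integral_finsetSum]
      · congr 1
        apply integral_congr_ae
        refine Filter.Eventually.of_forall fun x => ?_
        simp only
        rw [← Finset.sum_mul, trace_dFs]
      · intro κ _
        exact ((((hd κ).continuous_fderiv (by simp)).clm_apply continuous_const).mul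
          hφ.continuous).integrable_of_hasCompactSupport hc.mul_left
    · intro κ _
      exact ((hd κ).continuous.mul (hφ1 _)).integrable_of_hasCompactSupport (hc1 _).mul_left
  · intro x hx
    rw [image_eq_zero_of_notMem_tsupport hx, mul_zero]
  · intro x hx
    rw [fderiv_zero_off hx]
    simp

/-! ### bounds -/

theorem A_pos {s : ℝ} (hs : 0 < s) (X x : E (m + 3)) : 0 < A s X x :=
  mul_pos (inv_pos.2 hs) (b_pos _)

theorem norm_S {s : ℝ} (hs : 0 < s) (X x : E (m + 3)) : ‖S s X x‖ = s⁻¹ * ‖x - X‖ := by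
  rw [S, norm_smul, Real.norm_of_nonneg (inv_pos.2 hs).le]

theorem abs_Fs_le (c : E (m + 3)) {s : ℝ} (hs : 0 < s) (X x : E (m + 3)) :
    |Fs c s X x| ≤ ‖c‖ * ‖x - X‖ * A s X x := by
  have h := abs_F_le c (S s X x)
  rw [norm_S hs] at h
  refine h.trans (le_of_eq ?_)
  unfold A
  ring

theorem norm_dFs_le (c : E (m + 3)) {s : ℝ} (hs : 0 < s) (X x : E (m + 3)) :
    ‖dFs c s X x‖ ≤ (m + 4 : ℝ) * ‖c‖ * A s X x := by
  have h := norm_dF_le c (S s X x)
  unfold dFs A
  rw [norm_smul, Real.norm_of_nonneg (inv_pos.2 hs).le]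
  calc s⁻¹ * ‖dF c (S s X x)‖ ≤ s⁻¹ * ((m + 4 : ℝ) * ‖c‖ * b (S s X x)) := by
        gcongr
    _ = _ := by ring

theorem abs_lFs_le (c : E (m + 3)) {s : ℝ} (hs : 0 < s) (X x : E (m + 3)) :
    |lFs c s X x| ≤ (3 * (m + 3 : ℝ) ^ 2) * ‖c‖ * A s X x ^ 2 := by
  have h := abs_lF_le c (S s X x)
  unfold lFs A
  rw [abs_mul, abs_of_nonneg (by positivity : (0:ℝ) ≤ s⁻¹ ^ 2)]
  calc s⁻¹ ^ 2 * |lF c (S s X x)| ≤ s⁻¹ ^ 2 * ((3 * (m + 3 : ℝ) ^ 2) * ‖c‖ * b (S s X x) ^ 2) := by
        gcongr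
    _ = _ := by ring

theorem A_le_inv {s : ℝ} (hs : 0 < s) (X x : E (m + 3)) : A s X x ≤ s⁻¹ := by
  unfold A
  have h := b_le_one (S s X x)
  have hs' : 0 < s⁻¹ := inv_pos.2 hs
  nlinarith

theorem A_mul_le {s : ℝ} (hs : 0 < s) (X x : E (m + 3)) :
    A s X x * ‖x - X‖ ^ (m + 3) ≤ s ^ (m + 2) := by
  have h := b_mul_pow_le (S s X x)
  rw [norm_S hs, mul_pow, inv_pow] at h
  unfold A
  have hp : 0 < s ^ (m + 2) := by positivity
  calc s⁻¹ * b (S s X x) * ‖x - X‖ ^ (m + 3)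
      = s ^ (m + 2) * (b (S s X x) * ((s ^ (m + 3))⁻¹ * ‖x - X‖ ^ (m + 3))) := by
        rw [pow_succ s (m + 2)]
        field_simp
    _ ≤ s ^ (m + 2) * 1 := by gcongr
    _ = _ := mul_one _

/-- scaling of the integral of `A ^ p`. -/
theorem integral_A_rpow {p s : ℝ} (hs : 0 < s) (X : E (m + 3)) :
    ∫ x, A s X x ^ p = s ^ ((m + 3 : ℝ) - p) * ∫ ξ : E (m + 3), b ξ ^ p := by
  have h1 : ∀ x, A s X x ^ p = s ^ (-p) * (fun y => b (s⁻¹ • y) ^ p) (x - X) := by
    intro x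
    unfold A S
    rw [Real.mul_rpow (inv_pos.2 hs).le (b_pos _).le, Real.inv_rpow hs.le, Real.rpow_neg hs.le]
  simp only [h1]
  rw [integral_const_mul, integral_sub_right_eq_self (μ := volume) (fun y : E (m + 3) => b (s⁻¹ • y) ^ p) X,
    Measure.integral_comp_inv_smul_of_nonneg volume (fun y : E (m + 3) => b y ^ p) hs.le,
    finrank_euclideanSpace_fin, smul_eq_mul, ← mul_assoc]
  congr 1
  rw [← Real.rpow_natCast, ← Real.rpow_add hs]
  push_cast
  ring_nf

theorem integrable_A_rpow {p s : ℝ} (hp : 1 < p) (hs : 0 < s) (X : E (m + 3)) :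
    Integrable fun x : E (m + 3) => A s X x ^ p := by
  have h1 : ∀ x, A s X x ^ p = s ^ (-p) * (fun y => b (s⁻¹ • y) ^ p) (x - X) := by
    intro x
    unfold A S
    rw [Real.mul_rpow (inv_pos.2 hs).le (b_pos _).le, Real.inv_rpow hs.le, Real.rpow_neg hs.le]
  have h2 : Integrable (fun y : E (m + 3) => b (s⁻¹ • y) ^ p) :=
    (integrable_b_rpow hp).comp_smul (inv_pos.2 hs).ne'
  exact ((h2.comp_sub_right X).const_mul (s ^ (-p))).congr
    (Filter.Eventually.of_forall fun x => (h1 x).symm)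

end Pool.Agent.R525.HJ
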