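import Pool.Agent.R525.HJ.Per

/-!
# The sequence of bubbles and its sum
-/

set_option autoImplicit false

open Set Metric MeasureTheory Filter Topology
open scoped ContDiff

namespace Pool.Agent.R525.HJ

variable {m : ℕ}

/-- distances of the centres to the origin -/
noncomputable def ρ (j : ℕ) : ℝ := (1 / 2) ^ (j + 2)

/-- the scales -/
noncomputable def r (j : ℕ) : ℝ := ρ j ^ 2

/-- the centres -/
noncomputable def X (j : ℕ) : E (m + 3) := ρ j • ev 0

/-- the size of the gradient of the `j`-th bubble -/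
noncomputable def a (j : ℕ) (x : E (m + 3)) : ℝ := A (r j) (X j) x

theorem ρ_pos (j : ℕ) : 0 < ρ j := by unfold ρ; positivity

theorem ρ_le (j : ℕ) : ρ j ≤ 1 / 4 := by
  unfold ρ
  calc ((1:ℝ) / 2) ^ (j + 2) ≤ (1 / 2) ^ 2 :=
        pow_le_pow_of_le_one (by norm_num) (by norm_num) (by omega)
    _ = 1 / 4 := by norm_num

theorem r_pos (j : ℕ) : 0 < r j := by unfold r; have := ρ_pos j; positivity

theorem r_le (j : ℕ) : r j ≤ ρ j := by
  unfold r; have := ρ_pos j; have := ρ_le j; nlinarith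

theorem summable_ρ : Summable ρ := by
  unfold ρ
  exact (summable_nat_add_iff 2).2 (summable_geometric_of_lt_one (by norm_num) (by norm_num))

theorem tendsto_ρ : Tendsto ρ atTop (𝓝 0) := summable_ρ.tendsto_atTop_zero

theorem summable_ρ_rpow {ε : ℝ} (hε : 0 < ε) : Summable fun j => ρ j ^ ε := by
  have h : ∀ j, ρ j ^ ε = ((1 / 2 : ℝ) ^ ε) ^ (j + 2) := by
    intro j
    unfold ρ
    rw [← Real.rpow_natCast, ← Real.rpow_mul (by norm_num), mul_comm, Real.rpow_mul (by norm_num),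
      Real.rpow_natCast]
  simp only [h]
  refine (summable_nat_add_iff 2).2 (summable_geometric_of_lt_one (by positivity) ?_)
  exact Real.rpow_lt_one (by norm_num) (by norm_num) hε

theorem norm_ev (κ : Fin (m + 3)) : ‖ev κ‖ = 1 := by simp [ev]

theorem norm_X (j : ℕ) : ‖X (m := m) j‖ = ρ j := by
  unfold X
  rw [norm_smul, norm_ev, mul_one, Real.norm_of_nonneg (ρ_pos j).le]

theorem a_pos (j : ℕ) (x : E (m + 3)) : 0 < a j x := A_pos (r_pos j) _ _

theorem contDiff_a (j : ℕ) : ContDiff ℝ ∞ (a (m := m) j) := contDiff_A _ _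

theorem a_le {j : ℕ} {x : E (m + 3)} (h : ρ j / 2 ≤ ‖x - X j‖) : a j x ≤ 2 ^ (m + 3) * ρ j := by
  have hρ := ρ_pos j
  have h1 := A_mul_le (m := m) (r_pos j) (X j) x
  have h2 : a j x * (ρ j / 2) ^ (m + 3) ≤ r j ^ (m + 2) := by
    refine le_trans ?_ h1
    unfold a
    have := (A_pos (r_pos j) (X j) x).le
    gcongr
  have h3 : r j ^ (m + 2) = ρ j ^ (m + 1) * ρ j ^ (m + 3) := by
    unfold r
    rw [← pow_mul, ← pow_add]
    congr 1
    omega
  have h4 : ρ j ^ (m + 1) ≤ ρ j := by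
    calc ρ j ^ (m + 1) ≤ ρ j ^ 1 :=
          pow_le_pow_of_le_one hρ.le (by have := ρ_le j; linarith) (by omega)
      _ = ρ j := pow_one _
  have hp : 0 < (ρ j / 2) ^ (m + 3) := by positivity
  rw [← mul_le_mul_iff_left₀ hp]
  refine h2.trans ?_
  rw [h3, div_pow]
  have : 2 ^ (m + 3) * ρ j * (ρ j ^ (m + 3) / 2 ^ (m + 3)) = ρ j * ρ j ^ (m + 3) := by
    field_simp
  rw [this]
  gcongr

theorem loc_bound {x₀ : E (m + 3)} (h0 : x₀ ≠ 0) :
    ∃ B : ℕ → ℝ, Summable B ∧ ∀ j, ∀ x ∈ ball x₀ (‖x₀‖ / 2), a j x ≤ B j := by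
  have hx : 0 < ‖x₀‖ := norm_pos_iff.2 h0
  refine ⟨fun j => if ρ j ≤ ‖x₀‖ / 3 then 2 ^ (m + 3) * ρ j else (r j)⁻¹, ?_, ?_⟩
  · have h1 : Summable fun j => (2:ℝ) ^ (m + 3) * ρ j := summable_ρ.mul_left _
    refine (summable_congr_cofinite ?_).2 h1
    rw [Nat.cofinite_eq_atTop]
    filter_upwards [tendsto_ρ.eventually (ge_mem_nhds (show (0:ℝ) < ‖x₀‖ / 3 by positivity))] with j hj
    rw [if_pos hj]
  · intro j x hxb
    simp only
    split_ifs with h
    · apply a_le
      rw [mem_ball, dist_eq_norm] at hxb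
      have h1 : ‖x₀‖ ≤ ‖x - X j‖ + ‖X (m := m) j‖ + ‖x - x₀‖ := by
        calc ‖x₀‖ = ‖(x - X j) + X j - (x - x₀)‖ := by congr 1; abel
          _ ≤ ‖(x - X j) + X j‖ + ‖x - x₀‖ := norm_sub_le _ _
          _ ≤ _ := by gcongr; exact norm_add_le _ _
      rw [norm_X] at h1
      have := ρ_pos j
      linarith
    · exact A_le_inv (r_pos j) _ _

theorem summable_a (x : E (m + 3)) : Summable fun j => a j x := by
  by_cases h0 : x = 0
  · refine Summable.of_nonneg_of_le (fun j => (a_pos j x).le) (fun j => ?_)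
      (summable_ρ.mul_left (2 ^ (m + 3) : ℝ))
    apply a_le
    rw [h0, zero_sub, norm_neg, norm_X]
    have := ρ_pos j
    linarith
  · obtain ⟨B, hB, h⟩ := loc_bound h0
    refine Summable.of_nonneg_of_le (fun j => (a_pos j x).le) (fun j => ?_) hB
    exact h j x (mem_ball_self (by have := norm_pos_iff.2 h0; positivity))

/-- The sum of the sizes. -/
noncomputable def H (x : E (m + 3)) : ℝ := ∑' j, a j x

theorem hasSum_H (x : E (m + 3)) : HasSum (fun j => a j x) (H x) := (summable_a x).hasSum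

theorem a_le_H (j : ℕ) (x : E (m + 3)) : a j x ≤ H x :=
  (summable_a x).le_tsum j fun i _ => (a_pos i x).le

theorem H_pos (x : E (m + 3)) : 0 < H x := (a_pos 0 x).trans_le (a_le_H 0 x)

theorem summable_a_sq (x : E (m + 3)) : Summable fun j => a j x ^ 2 := by
  refine Summable.of_nonneg_of_le (fun j => by positivity) (fun j => ?_)
    ((summable_a x).mul_left (H x))
  have := a_le_H j x
  have := a_pos j x
  nlinarith

theorem tsum_a_sq_le (x : E (m + 3)) : ∑' j, a j x ^ 2 ≤ H x ^ 2 := by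
  calc ∑' j, a j x ^ 2 ≤ ∑' j, H x * a j x := by
        refine (summable_a_sq x).tsum_le_tsum (fun j => ?_) ((summable_a x).mul_left (H x))
        have := a_le_H j x
        have := a_pos j x
        nlinarith
    _ = H x ^ 2 := by rw [tsum_mul_left, sq]; rfl

/-! ### the three sums -/

/-- `j`-th term of the map -/
noncomputable def ft (c : E (m + 3)) (j : ℕ) (x : E (m + 3)) : ℝ := Fs c (r j) (X j) x
/-- `j`-th term of the gradient -/
noncomputable def gt (c : E (m + 3)) (j : ℕ) (x : E (m + 3)) : E (m + 3) := dFs c (r j) (X j) x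
/-- `j`-th term of the Laplacian -/
noncomputable def lt (c : E (m + 3)) (j : ℕ) (x : E (m + 3)) : ℝ := lFs c (r j) (X j) x

theorem ft_eq {c : E (m + 3)} (hc : inner ℝ c (ev 0) = (0:ℝ)) (j : ℕ) (x : E (m + 3)) :
    ft c j x = inner ℝ c x * a j x := by
  unfold ft Fs F a A S X
  rw [inner_smul_right, inner_sub_right, inner_smul_right, hc]
  ring

theorem norm_gt_le (c : E (m + 3)) (j : ℕ) (x : E (m + 3)) :
    ‖gt c j x‖ ≤ (m + 4 : ℝ) * ‖c‖ * a j x := norm_dFs_le c (r_pos j) _ _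

theorem abs_lt_le (c : E (m + 3)) (j : ℕ) (x : E (m + 3)) :
    |lt c j x| ≤ (3 * (m + 3 : ℝ) ^ 2) * ‖c‖ * a j x ^ 2 := abs_lFs_le c (r_pos j) _ _

theorem summable_gt (c : E (m + 3)) (x : E (m + 3)) : Summable fun j => gt c j x :=
  Summable.of_norm_bounded ((summable_a x).mul_left _) fun j => norm_gt_le c j x

theorem summable_lt (c : E (m + 3)) (x : E (m + 3)) : Summable fun j => lt c j x :=
  Summable.of_norm_bounded ((summable_a_sq x).mul_left _) fun j => abs_lt_le c j x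

/-- The gradient. -/
noncomputable def D (c : E (m + 3)) (x : E (m + 3)) : E (m + 3) := ∑' j, gt c j x

/-- The Laplacian. -/
noncomputable def L (c : E (m + 3)) (x : E (m + 3)) : ℝ := ∑' j, lt c j x

theorem hasSum_ft {c : E (m + 3)} (hc : inner ℝ c (ev 0) = (0:ℝ)) (x : E (m + 3)) :
    HasSum (fun j => ft c j x) (inner ℝ c x * H x) := by
  simp only [ft_eq hc]
  exact (hasSum_H x).mul_left _

theorem norm_D_le (c x : E (m + 3)) : ‖D c x‖ ≤ (m + 4 : ℝ) * ‖c‖ * H x :=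
  tsum_of_norm_bounded ((hasSum_H x).mul_left _) fun j => norm_gt_le c j x

theorem abs_L_le (c x : E (m + 3)) : |L c x| ≤ (3 * (m + 3 : ℝ) ^ 2) * ‖c‖ * H x ^ 2 := by
  have h : ‖L c x‖ ≤ (3 * (m + 3 : ℝ) ^ 2) * ‖c‖ * ∑' j, a j x ^ 2 :=
    tsum_of_norm_bounded ((summable_a_sq x).hasSum.mul_left _) fun j => abs_lt_le c j x
  refine h.trans ?_
  gcongr
  exact tsum_a_sq_le x

theorem inner_D {c x τ : E (m + 3)} (h0 : inner ℝ (ev 0) τ = (0:ℝ)) (h1 : inner ℝ x τ = (0:ℝ)) :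
    (inner ℝ (D c x) τ : ℝ) = inner ℝ c τ * H x := by
  have h2 : HasSum (fun j => (inner ℝ τ (gt c j x) : ℝ)) (inner ℝ τ (D c x)) :=
    (summable_gt c x).hasSum.mapL (innerSL ℝ τ)
  have h3 : ∀ j, (inner ℝ τ (gt c j x) : ℝ) = inner ℝ c τ * a j x := by
    intro j
    unfold gt dFs dF a A
    rw [real_inner_comm, inner_smul_left, inner_sub_left, inner_smul_left, inner_smul_left]
    have : (inner ℝ (S (r j) (X j) x) τ : ℝ) = 0 := by
      unfold S X
      rw [inner_smul_left, inner_sub_left, inner_smul_left, h0, h1]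
      simp
    rw [this]
    simp
    ring
  simp only [h3] at h2
  have h4 := h2.unique ((hasSum_H x).mul_left (inner ℝ c τ : ℝ))
  rw [real_inner_comm, h4]

theorem D_axis {c x : E (m + 3)} (h0 : inner ℝ c (ev 0) = (0:ℝ)) (h1 : inner ℝ c x = (0:ℝ)) :
    D c x = H x • c := by
  have h3 : ∀ j, gt c j x = a j x • c := by
    intro j
    unfold gt dFs dF a A
    have : (inner ℝ c (S (r j) (X j) x) : ℝ) = 0 := by
      unfold S X
      rw [inner_smul_right, inner_sub_right, inner_smul_right, h0, h1]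
      simp
    have h4 : co c (S (r j) (X j) x) = 0 := by
      unfold co; rw [this]; ring
    rw [h4, zero_smul, sub_zero, smul_smul]
  unfold D
  simp only [h3]
  exact ((hasSum_H x).smul_const c).tsum_eq

theorem lower {e₁ e₂ x : E (m + 3)} (n1 : ‖e₁‖ = 1) (n2 : ‖e₂‖ = 1)
    (h12 : inner ℝ e₁ e₂ = (0:ℝ)) (h10 : inner ℝ e₁ (ev 0) = (0:ℝ))
    (h20 : inner ℝ e₂ (ev 0) = (0:ℝ)) :
    H x ^ 2 ≤ ‖D e₁ x‖ ^ 2 + ‖D e₂ x‖ ^ 2 := by
  set y1 := (inner ℝ e₁ x : ℝ) with hy1
  set y2 := (inner ℝ e₂ x : ℝ) with hy2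
  by_cases h : y1 ^ 2 + y2 ^ 2 = 0
  · have h1 : y1 = 0 := by nlinarith [sq_nonneg y1, sq_nonneg y2]
    rw [D_axis h10 (by rw [← hy1]; exact h1), norm_smul, n1, mul_one, Real.norm_eq_abs, sq_abs]
    nlinarith [sq_nonneg ‖D e₂ x‖]
  · have hpos : 0 < y1 ^ 2 + y2 ^ 2 := lt_of_le_of_ne (by positivity) (Ne.symm h)
    set τ : E (m + 3) := y1 • e₂ - y2 • e₁ with hτ
    have t0 : inner ℝ (ev 0) τ = (0:ℝ) := by
      rw [hτ, inner_sub_right, inner_smul_right, inner_smul_right, real_inner_comm, h20,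
        real_inner_comm, h10]
      ring
    have t1 : inner ℝ x τ = (0:ℝ) := by
      rw [hτ, inner_sub_right, inner_smul_right, inner_smul_right, real_inner_comm, ← hy2,
        real_inner_comm, ← hy1]
      ring
    have t2 : inner ℝ e₁ τ = -y2 := by
      rw [hτ, inner_sub_right, inner_smul_right, inner_smul_right, h12,
        real_inner_self_eq_norm_sq, n1]
      ring
    have h21 : inner ℝ e₂ e₁ = (0:ℝ) := by rw [real_inner_comm]; exact h12
    have t3 : inner ℝ e₂ τ = y1 := by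
      rw [hτ, inner_sub_right, inner_smul_right, inner_smul_right, h21,
        real_inner_self_eq_norm_sq, n2]
      ring
    have t4 : ‖τ‖ ^ 2 = y1 ^ 2 + y2 ^ 2 := by
      rw [← real_inner_self_eq_norm_sq]
      conv_lhs => rw [hτ]
      rw [inner_sub_left, inner_smul_left, inner_smul_left, t2, t3]
      simp
      ring
    have u1 := inner_D (c := e₁) t0 t1
    have u2 := inner_D (c := e₂) t0 t1
    rw [t2] at u1
    rw [t3] at u2
    have v1 := abs_real_inner_le_norm (D e₁ x) τ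
    have v2 := abs_real_inner_le_norm (D e₂ x) τ
    rw [u1] at v1
    rw [u2] at v2
    have w1 : (-y2 * H x) ^ 2 ≤ ‖D e₁ x‖ ^ 2 * ‖τ‖ ^ 2 := by
      rw [← sq_abs, ← mul_pow]
      gcongr
    have w2 : (y1 * H x) ^ 2 ≤ ‖D e₂ x‖ ^ 2 * ‖τ‖ ^ 2 := by
      rw [← sq_abs, ← mul_pow]
      gcongr
    rw [t4] at w1 w2
    have : H x ^ 2 * (y1 ^ 2 + y2 ^ 2) ≤ (‖D e₁ x‖ ^ 2 + ‖D e₂ x‖ ^ 2) * (y1 ^ 2 + y2 ^ 2) := by
      nlinarith
    exact le_of_mul_le_mul_right this hpos

end Pool.Agent.R525.HJ
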