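import Pool.Agent.R525.HJ.Bdd

/-!
# The vector valued map
-/

set_option autoImplicit false

open Set Metric MeasureTheory Filter Topology
open scoped ContDiff ENNReal

namespace Pool.Agent.R525.HJ

variable {m k : ℕ}

/-- matrices -/
abbrev Mt (m k : ℕ) := PiLp 2 (fun _ : Fin (k + 2) => E (m + 3))

theorem inner_ev_ne {κ κ' : Fin (m + 3)} (h : κ ≠ κ') : inner ℝ (ev κ) (ev κ') = (0:ℝ) := by
  rw [inner_ev]
  simp [ev, h.symm]

/-- an index -/
def i1 : Fin (m + 3) := ⟨1, by omega⟩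
/-- an index -/
def i2 : Fin (m + 3) := ⟨2, by omega⟩

/-- the coefficient vectors -/
noncomputable def cc (m k : ℕ) (i : Fin (k + 2)) : E (m + 3) :=
  if i = 0 then ev i1 else if i = 1 then ev i2 else 0

theorem cc_zero : cc m k 0 = ev i1 := by simp [cc]
theorem cc_one : cc m k 1 = ev i2 := by simp [cc]

theorem ne10 : (i1 : Fin (m + 3)) ≠ 0 := by simp [i1]
theorem ne20 : (i2 : Fin (m + 3)) ≠ 0 := by simp [i2, Fin.ext_iff]
theorem ne12 : (i1 : Fin (m + 3)) ≠ i2 := by simp [i1, i2]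

theorem norm_cc_le (i : Fin (k + 2)) : ‖cc m k i‖ ≤ 1 := by
  unfold cc
  split_ifs
  · rw [norm_ev]
  · rw [norm_ev]
  · simp

theorem inner_cc (i : Fin (k + 2)) : inner ℝ (cc m k i) (ev 0) = (0:ℝ) := by
  unfold cc
  split_ifs
  · exact inner_ev_ne ne10
  · exact inner_ev_ne ne20
  · simp

/-- the map -/
noncomputable def uu (m k : ℕ) (x : E (m + 3)) : E (k + 2) :=
  WithLp.toLp 2 (fun i => inner ℝ (cc m k i) x * H x)
/-- the gradient -/
noncomputable def GG (m k : ℕ) (x : E (m + 3)) : Mt m k :=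
  WithLp.toLp 2 (fun i => D (cc m k i) x)
/-- the Laplacian -/
noncomputable def LL (m k : ℕ) (x : E (m + 3)) : E (k + 2) :=
  WithLp.toLp 2 (fun i => L (cc m k i) x)
/-- the nonlinearity -/
noncomputable def QQ (m k : ℕ) (x : E (m + 3)) (_y : E (k + 2)) (z : Mt m k) : E (k + 2) :=
  (‖z‖ ^ 2 / ‖GG m k x‖ ^ 2) • LL m k x

theorem norm_le_of_coord {β : Type*} [NormedAddCommGroup β] (v : PiLp 2 (fun _ : Fin (k + 2) => β))
    {B : ℝ} (hB : 0 ≤ B) (h : ∀ i, ‖v i‖ ≤ B) : ‖v‖ ≤ (k + 2 : ℝ) * B := by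
  have h1 : ‖v‖ ^ 2 = ∑ i, ‖v i‖ ^ 2 := PiLp.norm_sq_eq_of_L2 _ v
  have h2 : ∑ i, ‖v i‖ ^ 2 ≤ ∑ _i : Fin (k + 2), B ^ 2 :=
    Finset.sum_le_sum fun i _ => by
      have := h i
      have := norm_nonneg (v i)
      gcongr
  rw [Finset.sum_const, Finset.card_univ, Fintype.card_fin, nsmul_eq_mul] at h2
  push_cast at h2
  have h3 : ‖v‖ ^ 2 ≤ ((k + 2 : ℝ) * B) ^ 2 := by
    rw [h1]
    refine h2.trans ?_
    have : (0:ℝ) ≤ k := by positivity
    nlinarith [sq_nonneg B, mul_nonneg this (sq_nonneg B), mul_nonneg (mul_nonneg this this) (sq_nonneg B)]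
  exact le_of_sq_le_sq h3 (by positivity)

theorem H_le_norm_GG (x : E (m + 3)) : H x ≤ ‖GG m k x‖ := by
  have h1 : ‖GG m k x‖ ^ 2 = ∑ i, ‖GG m k x i‖ ^ 2 := PiLp.norm_sq_eq_of_L2 _ _
  have h2 := lower (x := x) (norm_ev (m := m) i1) (norm_ev (m := m) i2) (inner_ev_ne ne12)
    (inner_ev_ne ne10) (inner_ev_ne ne20)
  have h3 : ‖D (ev i1) x‖ ^ 2 + ‖D (ev i2) x‖ ^ 2 ≤ ∑ i, ‖GG m k x i‖ ^ 2 := by
    rw [Fin.sum_univ_succ, Fin.sum_univ_succ, ← add_assoc]
    have e0 : GG m k x 0 = D (ev i1) x := by simp [GG, cc_zero]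
    have e1 : GG m k x (Fin.succ 0) = D (ev i2) x := by
      simp [GG, cc_one]
    rw [e0, e1]
    have : (0:ℝ) ≤ ∑ i : Fin k, ‖GG m k x i.succ.succ‖ ^ 2 :=
      Finset.sum_nonneg fun i _ => sq_nonneg _
    linarith
  have h4 : H x ^ 2 ≤ ‖GG m k x‖ ^ 2 := by rw [h1]; exact h2.trans h3
  exact le_of_sq_le_sq h4 (norm_nonneg _)

theorem norm_GG_le (x : E (m + 3)) : ‖GG m k x‖ ≤ (k + 2 : ℝ) * (m + 4) * H x := by
  have hH := H_pos x
  have := norm_le_of_coord (GG m k x) (B := (m + 4 : ℝ) * H x) (by positivity) fun i => by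
    have h1 := norm_D_le (cc m k i) x
    have h2 := norm_cc_le (m := m) i
    have h3 : GG m k x i = D (cc m k i) x := rfl
    rw [h3]
    calc ‖D (cc m k i) x‖ ≤ (m + 4 : ℝ) * ‖cc m k i‖ * H x := h1
      _ ≤ (m + 4 : ℝ) * 1 * H x := by gcongr
      _ = _ := by ring
  rw [mul_assoc]
  exact this

theorem norm_LL_le (x : E (m + 3)) :
    ‖LL m k x‖ ≤ (k + 2 : ℝ) * (3 * (m + 3 : ℝ) ^ 2) * H x ^ 2 := by
  have hH := H_pos x
  have := norm_le_of_coord (LL m k x) (B := (3 * (m + 3 : ℝ) ^ 2) * H x ^ 2) (by positivity)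
    fun i => by
      have h1 := abs_L_le (cc m k i) x
      have h2 := norm_cc_le (m := m) i
      have h3 : LL m k x i = L (cc m k i) x := rfl
      rw [h3, Real.norm_eq_abs]
      calc |L (cc m k i) x| ≤ (3 * (m + 3 : ℝ) ^ 2) * ‖cc m k i‖ * H x ^ 2 := h1
        _ ≤ (3 * (m + 3 : ℝ) ^ 2) * 1 * H x ^ 2 := by gcongr
        _ = _ := by ring
  rw [mul_assoc]
  exact this

theorem norm_uu_le (x : E (m + 3)) : ‖uu m k x‖ ≤ (k + 2 : ℝ) * (1 + 8 * ∑' j, ρ j) :=
  norm_le_of_coord (uu m k x) (B := 1 + 8 * ∑' j, ρ j)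
    (by have : 0 ≤ ∑' j, ρ j := tsum_nonneg fun j => (ρ_pos j).le
        positivity)
    fun i => abs_u_le (inner_cc i) (norm_cc_le i) x

theorem norm_QQ_le (x : E (m + 3)) (y : E (k + 2)) (z : Mt m k) :
    ‖QQ m k x y z‖ ≤ ((k + 2 : ℝ) * (3 * (m + 3 : ℝ) ^ 2)) * ‖z‖ ^ 2 := by
  unfold QQ
  have h1 := H_le_norm_GG (m := m) (k := k) x
  have h2 := norm_LL_le (m := m) (k := k) x
  have hH := H_pos x
  have hG : 0 < ‖GG m k x‖ := hH.trans_le h1
  have h3 : H x ^ 2 ≤ ‖GG m k x‖ ^ 2 := by gcongr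
  rw [norm_smul, Real.norm_of_nonneg (by positivity)]
  calc ‖z‖ ^ 2 / ‖GG m k x‖ ^ 2 * ‖LL m k x‖
      ≤ ‖z‖ ^ 2 / ‖GG m k x‖ ^ 2 * ((k + 2 : ℝ) * (3 * (m + 3 : ℝ) ^ 2) * ‖GG m k x‖ ^ 2) := by
        have : ‖LL m k x‖ ≤ (k + 2 : ℝ) * (3 * (m + 3 : ℝ) ^ 2) * ‖GG m k x‖ ^ 2 :=
          h2.trans (by gcongr)
        gcongr
    _ = _ := by field_simp

theorem QQ_self (x : E (m + 3)) (y : E (k + 2)) : QQ m k x y (GG m k x) = LL m k x := by
  unfold QQ
  have h1 := H_le_norm_GG (m := m) (k := k) x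
  have hG : 0 < ‖GG m k x‖ := (H_pos x).trans_le h1
  rw [div_self (by positivity), one_smul]

/-! ### measurability -/

theorem measurable_uu : Measurable (uu m k) := by
  refine (PiLp.continuous_toLp 2 (fun _ : Fin (k + 2) => ℝ)).measurable.comp ?_
  refine measurable_pi_lambda _ fun i => ?_
  exact (continuous_const.inner continuous_id).measurable.mul measurable_H

theorem measurable_GG : Measurable (GG m k) := by
  refine (PiLp.continuous_toLp 2 (fun _ : Fin (k + 2) => E (m + 3))).measurable.comp ?_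
  exact measurable_pi_lambda _ fun i => measurable_D _

theorem measurable_LL : Measurable (LL m k) := by
  refine (PiLp.continuous_toLp 2 (fun _ : Fin (k + 2) => ℝ)).measurable.comp ?_
  exact measurable_pi_lambda _ fun i => measurable_L _

theorem measurable_QQ :
    Measurable (fun t : E (m + 3) × E (k + 2) × Mt m k => QQ m k t.1 t.2.1 t.2.2) := by
  have h1 : Measurable (fun t : E (m + 3) × E (k + 2) × Mt m k =>
      (‖t.2.2‖ ^ 2 / ‖GG m k t.1‖ ^ 2 : ℝ)) := by
    refine Measurable.div ?_ ?_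
    · exact ((measurable_snd.comp measurable_snd).norm).pow_const 2
    · exact ((measurable_GG.comp measurable_fst).norm).pow_const 2
  have h2 : Measurable (fun t : E (m + 3) × E (k + 2) × Mt m k => LL m k t.1) :=
    measurable_LL.comp measurable_fst
  exact h1.smul h2

/-! ### integrability -/

instance : IsFiniteMeasure (volume.restrict (ball (0 : E (m + 3)) 1)) :=
  ⟨by rw [Measure.restrict_apply_univ]; exact measure_ball_lt_top⟩

theorem memLp_GG {p : ℝ} (hp : 1 < p) (hpn : p < m + 3) :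
    MemLp (GG m k) (ENNReal.ofReal p) (volume.restrict (ball 0 1)) := by
  refine (memLp_H hp hpn).of_le_mul (c := (k + 2 : ℝ) * (m + 4))
    measurable_GG.aestronglyMeasurable (Eventually.of_forall fun x => ?_)
  rw [Real.norm_of_nonneg (H_pos x).le]
  exact norm_GG_le x

theorem memLp_uu {p : ℝ} : MemLp (uu m k) (ENNReal.ofReal p) (volume.restrict (ball 0 1)) :=
  MemLp.of_bound measurable_uu.aestronglyMeasurable _ (Eventually.of_forall norm_uu_le)

theorem integrable_H : Integrable (H (m := m)) (volume.restrict (ball 0 1)) := by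
  have h := memLp_H (m := m) (p := 2) (by norm_num) (by
    have : (0:ℝ) ≤ m := by positivity
    linarith)
  exact h.integrable (by rw [← ENNReal.ofReal_one]; exact ENNReal.ofReal_le_ofReal (by norm_num))

theorem integrable_H_sq :
    Integrable (fun x => H (m := m) x ^ 2) (volume.restrict (ball 0 1)) := by
  have h := memLp_H (m := m) (p := 2) (by norm_num) (by
    have : (0:ℝ) ≤ m := by positivity
    linarith)
  have e : ENNReal.ofReal 2 = 2 := by simp
  rw [e] at h
  exact h.integrable_sq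

theorem weak_grad_uu {φ : E (m + 3) → ℝ}
    (hφ : ContDiff ℝ ∞ φ) (hcs : HasCompactSupport φ) (hs : tsupport φ ⊆ ball 0 1)
    (i : Fin (k + 2)) (v : E (m + 3)) :
    ∫ x in ball (0 : E (m + 3)) 1, uu m k x i * fderiv ℝ φ x v =
      -∫ x in ball (0 : E (m + 3)) 1, inner ℝ (GG m k x i) v * φ x :=
  weak_grad (inner_cc i) hφ hcs hs v

theorem weak_eq_uu {φ : E (m + 3) → E (k + 2)}
    (hφ : ContDiff ℝ ∞ φ) (hcs : HasCompactSupport φ) (hs : tsupport φ ⊆ ball 0 1) :
    -∫ x in ball (0 : E (m + 3)) 1, ∑ i, inner ℝ (GG m k x i) (gradient (fun y => φ y i) x) =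
      ∫ x in ball (0 : E (m + 3)) 1, inner ℝ (QQ m k x (uu m k x) (GG m k x)) (φ x) := by
  have hφi : ∀ i, ContDiff ℝ ∞ (fun y => φ y i) := fun i =>
    (EuclideanSpace.proj (𝕜 := ℝ) i).contDiff.comp hφ
  have hci : ∀ i, HasCompactSupport (fun y => φ y i) := fun i =>
    hcs.comp_left (g := fun z : E (k + 2) => z i) (by simp)
  have hsi : ∀ i, tsupport (fun y => φ y i) ⊆ ball 0 1 := fun i =>
    (closure_mono (fun x hx => by
      rw [Function.mem_support] at hx ⊢
      intro h; apply hx; rw [h]; simp)).trans hs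
  have e1 : ∀ x, ∑ i, inner ℝ (GG m k x i) (gradient (fun y => φ y i) x) =
      ∑ i, fderiv ℝ (fun y => φ y i) x (D (cc m k i) x) := by
    intro x
    refine Finset.sum_congr rfl fun i _ => ?_
    rw [inner_gradient']
    rfl
  have e2 : ∀ x, (inner ℝ (QQ m k x (uu m k x) (GG m k x)) (φ x) : ℝ) =
      ∑ i, L (cc m k i) x * φ x i := by
    intro x
    rw [QQ_self, PiLp.inner_apply]
    refine Finset.sum_congr rfl fun i _ => ?_
    simp [LL, mul_comm]
  simp only [e1, e2]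
  rw [integral_finsetSum, integral_finsetSum, ← Finset.sum_neg_distrib]
  · refine Finset.sum_congr rfl fun i _ => ?_
    rw [weak_eq (hφi i) (hci i) (hsi i), neg_neg]
  · intro i _
    obtain ⟨M, hM⟩ := (hφi i).continuous.bounded_above_of_compact_support (hci i)
    refine (integrable_H_sq.const_mul ((3 * (m + 3 : ℝ) ^ 2) * ‖cc m k i‖ * M)).mono' ?_
      (Eventually.of_forall fun x => ?_)
    · exact ((measurable_L _).mul (hφi i).continuous.measurable).aestronglyMeasurable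
    · rw [norm_mul]
      have h1 := abs_L_le (cc m k i) x
      have h2 := hM x
      rw [Real.norm_eq_abs (L _ _)]
      calc |L (cc m k i) x| * ‖φ x i‖ ≤ ((3 * (m + 3 : ℝ) ^ 2) * ‖cc m k i‖ * H x ^ 2) * M := by
            gcongr
        _ = _ := by ring
  · intro i _
    have hdc : Continuous fun x => fderiv ℝ (fun y => φ y i) x :=
      (hφi i).continuous_fderiv (by simp)
    obtain ⟨M, hM⟩ := hdc.bounded_above_of_compact_support ((hci i).fderiv ℝ)
    refine (integrable_H.const_mul (M * ((m + 4 : ℝ) * ‖cc m k i‖))).mono' ?_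
      (Eventually.of_forall fun x => ?_)
    · have : (fun x => fderiv ℝ (fun y => φ y i) x (D (cc m k i) x)) =
          fun x => ∑ κ, D (cc m k i) x κ * fderiv ℝ (fun y => φ y i) x (ev κ) := by
        funext x
        exact fderiv_eq_sum _ _ _
      rw [this]
      refine Measurable.aestronglyMeasurable ?_
      refine Finset.measurable_sum _ fun κ _ => ?_
      refine Measurable.mul ?_ ?_
      · exact (EuclideanSpace.proj (𝕜 := ℝ) κ).continuous.measurable.comp (measurable_D _)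
      · exact (hdc.clm_apply continuous_const).measurable
    · have e1 := (fderiv ℝ (fun y => φ y i) x).le_opNorm (D (cc m k i) x)
      have e4 := norm_D_le (cc m k i) x
      have e5 := hM x
      have e6 : 0 ≤ M := (norm_nonneg _).trans e5
      calc ‖fderiv ℝ (fun y => φ y i) x (D (cc m k i) x)‖
          ≤ ‖fderiv ℝ (fun y => φ y i) x‖ * ‖D (cc m k i) x‖ := e1
        _ ≤ M * ((m + 4 : ℝ) * ‖cc m k i‖ * H x) := by gcongr
        _ = _ := by ring

end Pool.Agent.R525.HJ
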