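import Pool.Agent.R525.HJ.Lp

/-!
# The weak gradient and the weak equation of the sum
-/

set_option autoImplicit false

open Set Metric MeasureTheory Filter Topology
open scoped ContDiff ENNReal

namespace Pool.Agent.R525.HJ

variable {m : ℕ}

theorem integrableOn_ball {f : E (m + 3) → ℝ} (hf : Continuous f) :
    IntegrableOn f (ball 0 1) :=
  (hf.continuousOn.integrableOn_compact (isCompact_closedBall 0 1)).mono_set
    ball_subset_closedBall

theorem swap {f w : ℕ → E (m + 3) → ℝ} {K : ℝ} (hf : ∀ j, Continuous (f j))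
    (hw : ∀ j, Continuous (w j)) (hb : ∀ j, ∀ x ∈ ball (0 : E (m + 3)) 1, |f j x| ≤ K * w j x)
    (hs : Summable fun j => ∫ x in ball (0 : E (m + 3)) 1, w j x) :
    HasSum (fun j => ∫ x in ball (0 : E (m + 3)) 1, f j x)
      (∫ x in ball (0 : E (m + 3)) 1, ∑' j, f j x) := by
  refine hasSum_integral_of_summable_integral_norm (fun j => integrableOn_ball (hf j)) ?_
  refine Summable.of_nonneg_of_le (fun j => integral_nonneg fun x => norm_nonneg _) (fun j => ?_)
    (hs.mul_left K)
  rw [← integral_const_mul]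
  exact setIntegral_mono_on (integrableOn_ball (hf j).norm)
    ((integrableOn_ball (hw j)).const_mul K) measurableSet_ball fun x hx => hb j x hx

theorem summable_int_a : Summable fun j => ∫ x in ball (0 : E (m + 3)) 1, a j x :=
  Summable.of_nonneg_of_le (fun j => integral_nonneg fun x => (a_pos j x).le)
    (fun j => integral_a_le j) (summable_ρ.mul_left _)

theorem summable_int_a_sq : Summable fun j => ∫ x in ball (0 : E (m + 3)) 1, a j x ^ 2 := by
  refine Summable.of_nonneg_of_le (fun j => integral_nonneg fun x => sq_nonneg _)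
    (fun j => (integral_a_sq_le j).trans ?_) (summable_ρ.mul_left (cb m 2))
  have := cb_nonneg (m := m) 2
  have := r_le j
  gcongr

theorem continuous_ft (c : E (m + 3)) (j : ℕ) : Continuous (ft c j) := (contDiff_Fs c _ _).continuous
theorem continuous_gt (c : E (m + 3)) (j : ℕ) : Continuous (gt c j) := (contDiff_dFs c _ _).continuous
theorem continuous_lt (c : E (m + 3)) (j : ℕ) : Continuous (lt c j) := (contDiff_lFs c _ _).continuous

theorem weak_grad {c : E (m + 3)} (hc : inner ℝ c (ev 0) = (0:ℝ)) {φ : E (m + 3) → ℝ}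
    (hφ : ContDiff ℝ ∞ φ) (hcs : HasCompactSupport φ) (hs : tsupport φ ⊆ ball 0 1)
    (v : E (m + 3)) :
    ∫ x in ball (0 : E (m + 3)) 1, (inner ℝ c x * H x) * fderiv ℝ φ x v =
      -∫ x in ball (0 : E (m + 3)) 1, inner ℝ (D c x) v * φ x := by
  obtain ⟨M1, hM1⟩ := hφ.continuous.bounded_above_of_compact_support hcs
  have hdc : Continuous fun x => fderiv ℝ φ x v :=
    (hφ.continuous_fderiv (by simp)).clm_apply continuous_const
  obtain ⟨M2, hM2⟩ := hdc.bounded_above_of_compact_support (hcs.fderiv_apply ℝ v)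
  have h1 := swap (f := fun j x => ft c j x * fderiv ℝ φ x v) (w := a) (K := ‖c‖ * M2)
    (fun j => (continuous_ft c j).mul hdc) continuous_a (fun j x hx => by
      rw [mem_ball_zero_iff] at hx
      rw [abs_mul, ft_eq hc, abs_mul, abs_of_pos (a_pos j x)]
      have e1 := abs_real_inner_le_norm c x
      have e2 := hM2 x
      rw [Real.norm_eq_abs] at e2
      have e3 := a_pos j x
      have e4 : ‖c‖ * ‖x‖ ≤ ‖c‖ * 1 := by gcongr
      calc |(inner ℝ c x : ℝ)| * a j x * |fderiv ℝ φ x v| ≤ (‖c‖ * 1) * a j x * M2 := by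
            have := e1.trans e4
            gcongr
        _ = _ := by ring) summable_int_a
  have h2 := swap (f := fun j x => inner ℝ (gt c j x) v * φ x) (w := a)
    (K := (m + 4 : ℝ) * ‖c‖ * ‖v‖ * M1)
    (fun j => ((continuous_gt c j).inner continuous_const).mul hφ.continuous) continuous_a
    (fun j x hx => by
      have e1 := abs_real_inner_le_norm (gt c j x) v
      have e2 := hM1 x
      rw [Real.norm_eq_abs] at e2
      have e3 := a_pos j x
      have e4 := norm_gt_le c j x
      rw [abs_mul]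
      calc |(inner ℝ (gt c j x) v : ℝ)| * |φ x| ≤ ((m + 4 : ℝ) * ‖c‖ * a j x * ‖v‖) * M1 := by
            have : ‖gt c j x‖ * ‖v‖ ≤ (m + 4 : ℝ) * ‖c‖ * a j x * ‖v‖ := by gcongr
            have := e1.trans this
            gcongr
        _ = _ := by ring) summable_int_a
  have h3 : (fun j => ∫ x in ball (0 : E (m + 3)) 1, ft c j x * fderiv ℝ φ x v) =
      fun j => -∫ x in ball (0 : E (m + 3)) 1, inner ℝ (gt c j x) v * φ x := by
    funext j
    exact bub_grad c (r j) (X j) hφ hcs hs v
  rw [h3] at h1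
  have h4 := h1.unique h2.neg
  have e1 : ∀ x, ∑' j, ft c j x * fderiv ℝ φ x v = (inner ℝ c x * H x) * fderiv ℝ φ x v := by
    intro x
    exact ((hasSum_ft hc x).mul_right _).tsum_eq
  have e2 : ∀ x, ∑' j, inner ℝ (gt c j x) v * φ x = inner ℝ (D c x) v * φ x := by
    intro x
    have : HasSum (fun j => (inner ℝ v (gt c j x) : ℝ)) (inner ℝ v (D c x)) :=
      (summable_gt c x).hasSum.mapL (innerSL ℝ v)
    have h5 := (this.mul_right (φ x)).tsum_eq
    simp only [real_inner_comm v] at h5 ⊢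
    exact h5
  simp only [e1, e2] at h4
  exact h4

theorem weak_eq {c : E (m + 3)} {φ : E (m + 3) → ℝ}
    (hφ : ContDiff ℝ ∞ φ) (hcs : HasCompactSupport φ) (hs : tsupport φ ⊆ ball 0 1) :
    ∫ x in ball (0 : E (m + 3)) 1, fderiv ℝ φ x (D c x) =
      -∫ x in ball (0 : E (m + 3)) 1, L c x * φ x := by
  obtain ⟨M1, hM1⟩ := hφ.continuous.bounded_above_of_compact_support hcs
  have hdc : Continuous fun x => fderiv ℝ φ x := hφ.continuous_fderiv (by simp)
  obtain ⟨M2, hM2⟩ := hdc.bounded_above_of_compact_support (hcs.fderiv ℝ)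
  have h1 := swap (f := fun j x => fderiv ℝ φ x (gt c j x)) (w := a)
    (K := M2 * ((m + 4 : ℝ) * ‖c‖))
    (fun j => hdc.clm_apply (continuous_gt c j)) continuous_a (fun j x hx => by
      have e1 := (fderiv ℝ φ x).le_opNorm (gt c j x)
      rw [Real.norm_eq_abs] at e1
      have e4 := norm_gt_le c j x
      have e2 := hM2 x
      have e5 : 0 ≤ M2 := (norm_nonneg _).trans e2
      calc |fderiv ℝ φ x (gt c j x)| ≤ ‖fderiv ℝ φ x‖ * ‖gt c j x‖ := e1
        _ ≤ M2 * ((m + 4 : ℝ) * ‖c‖ * a j x) := by gcongr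
        _ = _ := by ring) summable_int_a
  have h2 := swap (f := fun j x => lt c j x * φ x) (w := fun j x => a j x ^ 2)
    (K := (3 * (m + 3 : ℝ) ^ 2) * ‖c‖ * M1)
    (fun j => (continuous_lt c j).mul hφ.continuous) (fun j => (continuous_a j).pow 2)
    (fun j x hx => by
      have e2 := hM1 x
      rw [Real.norm_eq_abs] at e2
      have e4 := abs_lt_le c j x
      rw [abs_mul]
      calc |lt c j x| * |φ x| ≤ ((3 * (m + 3 : ℝ) ^ 2) * ‖c‖ * a j x ^ 2) * M1 := by gcongr
        _ = _ := by ring) summable_int_a_sq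
  have h3 : (fun j => ∫ x in ball (0 : E (m + 3)) 1, fderiv ℝ φ x (gt c j x)) =
      fun j => -∫ x in ball (0 : E (m + 3)) 1, lt c j x * φ x := by
    funext j
    exact bub_eq c (r j) (X j) hφ hcs hs
  rw [h3] at h1
  have h4 := h1.unique h2.neg
  have e1 : ∀ x, ∑' j, fderiv ℝ φ x (gt c j x) = fderiv ℝ φ x (D c x) := by
    intro x
    exact ((summable_gt c x).hasSum.mapL (fderiv ℝ φ x)).tsum_eq
  have e2 : ∀ x, ∑' j, lt c j x * φ x = L c x * φ x := by
    intro x
    rw [tsum_mul_right]
    rfl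
  simp only [e1, e2] at h4
  exact h4

/-! ### continuity away from the origin, and values -/

theorem continuousAt_H {x₀ : E (m + 3)} (h0 : x₀ ≠ 0) : ContinuousAt H x₀ := by
  obtain ⟨B, hB, h⟩ := loc_bound h0
  have h1 : ContinuousOn (H (m := m)) (ball x₀ (‖x₀‖ / 2)) := by
    refine continuousOn_tsum (fun j => (continuous_a j).continuousOn) hB fun j x hx => ?_
    rw [Real.norm_of_nonneg (a_pos j x).le]
    exact h j x hx
  exact h1.continuousAt (ball_mem_nhds _ (by have := norm_pos_iff.2 h0; positivity))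

theorem H_bdd {x₀ : E (m + 3)} (h0 : x₀ ≠ 0) :
    ∃ B, 0 ≤ B ∧ ∀ x ∈ ball x₀ (‖x₀‖ / 2), H x ≤ B := by
  obtain ⟨B, hB, h⟩ := loc_bound h0
  refine ⟨∑' j, B j, ?_, ?_⟩
  · refine tsum_nonneg fun j => ?_
    exact (a_pos j x₀).le.trans
      (h j x₀ (mem_ball_self (by have := norm_pos_iff.2 h0; positivity)))
  · intro x hx
    exact (summable_a x).tsum_le_tsum (fun j => h j x hx) hB

theorem a_at {e : E (m + 3)} (he : ‖e‖ = 1) (j : ℕ) : a j (X j + r j • e) = (r j)⁻¹ * (√2)⁻¹ := by
  unfold a A b q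
  have h : S (r j) (X j) (X j + r j • e) = e := by
    unfold S
    rw [add_sub_cancel_left, smul_smul, inv_mul_cancel₀ (r_pos j).ne', one_smul]
  rw [h, he]
  norm_num

end Pool.Agent.R525.HJ
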